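import Mathlib

/-!
# Differences of a multiplicative subgroup of finite index in a field

If `K` is an infinite field, or a finite field with more than `16 r ^ 4` elements, and `G` is a
subgroup of index `r` of its unit group then every element of `K` is a difference of two elements
of `G`.
-/

set_option autoImplicit false

namespace Pool.Agent.Y85.Hyp

open Finset

/-- In an infinite additive group there are arbitrarily long finite families all of whose nonempty
subsums are nonzero. -/
theorem exists_sums_ne_zero (K : Type) [AddCommGroup K] [Infinite K] (ι : Type) [Fintype ι] :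
    ∃ l : ι → K, ∀ J : Finset ι, J.Nonempty → ∑ j ∈ J, l j ≠ 0 := by
  classical
  suffices h : ∀ s : Finset ι, ∃ l : ι → K, ∀ J : Finset ι, J ⊆ s → J.Nonempty →
      ∑ j ∈ J, l j ≠ 0 by
    obtain ⟨l, hl⟩ := h Finset.univ
    exact ⟨l, fun J hJ => hl J (Finset.subset_univ _) hJ⟩
  intro s
  induction s using Finset.induction_on with
  | empty =>
    exact ⟨0, fun J hJ hJ' => absurd (Finset.subset_empty.1 hJ) hJ'.ne_empty⟩
  | insert a s ha ih =>
    obtain ⟨l, hl⟩ := ih
    obtain ⟨x, hx⟩ := Infinite.exists_notMem_finset (s.powerset.image (fun J => -∑ j ∈ J, l j))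
    refine ⟨Function.update l a x, fun J hJ hJn => ?_⟩
    by_cases haJ : a ∈ J
    · rw [← Finset.add_sum_erase J _ haJ, Function.update_self]
      have h1 : ∑ j ∈ J.erase a, Function.update l a x j = ∑ j ∈ J.erase a, l j :=
        Finset.sum_congr rfl fun j hj => Function.update_of_ne (Finset.ne_of_mem_erase hj) _ _
      rw [h1]
      intro h
      apply hx
      refine Finset.mem_image.2 ⟨J.erase a, ?_, ?_⟩
      · rw [Finset.mem_powerset]
        intro j hj
        have h2 := hJ (Finset.mem_of_mem_erase hj)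
        rcases Finset.mem_insert.1 h2 with h3 | h3
        · exact absurd h3 (Finset.ne_of_mem_erase hj)
        · exact h3
      · exact (eq_neg_of_add_eq_zero_left h).symm
    · have h2 : J ⊆ s := by
        intro j hj
        rcases Finset.mem_insert.1 (hJ hj) with h3 | h3
        · exact absurd (h3 ▸ hj) haJ
        · exact h3
      have h1 : ∑ j ∈ J, Function.update l a x j = ∑ j ∈ J, l j := by
        refine Finset.sum_congr rfl fun j hj => Function.update_of_ne ?_ _ _
        rintro rfl
        exact haJ hj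
      rw [h1]
      exact hl J h2 hJn

/-- `f : K → Fin (r+1)` describes the quotient of the field `K` by the subgroup `G`. -/
structure QuotMap {r : ℕ} {K : Type} [Field K] (G : Subgroup Kˣ) (f : K → Fin (r + 1)) : Prop where
  surj : Function.Surjective f
  zero : f 0 = 0
  fib : ∀ x y : K, f x = f y ↔ ∃ g ∈ G, y = x * (g : K)

section

variable {r : ℕ} {K : Type} [Field K] {G : Subgroup Kˣ} {f : K → Fin (r + 1)}

theorem QuotMap.eq_zero (h : QuotMap G f) {x : K} (hx : f x = 0) : x = 0 := by
  rw [← h.zero, eq_comm] at hx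
  obtain ⟨g, _, hg⟩ := (h.fib _ _).1 hx
  rw [hg, zero_mul]

theorem QuotMap.mul_left (h : QuotMap G f) {x y : K} (c : K) (hxy : f x = f y) :
    f (c * x) = f (c * y) := by
  obtain ⟨g, hg, rfl⟩ := (h.fib _ _).1 hxy
  exact (h.fib _ _).2 ⟨g, hg, by ring⟩

theorem QuotMap.diff_of_infinite (h : QuotMap G f) [Infinite K] (z : Fin (r + 1)) :
    ∃ g ∈ G, ∃ g' ∈ G, z = f (1 * ((g : Kˣ) : K) + (-1) * ((g' : Kˣ) : K)) := by
  classical
  by_cases hz0 : z = 0
  · exact ⟨1, G.one_mem, 1, G.one_mem, by simp [hz0, h.zero]⟩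
  obtain ⟨ι, _, hι⟩ :=
    Combinatorics.Line.exists_mono_in_high_dimension (Fin (r + 1)) (Fin (r + 1))
  obtain ⟨l, hl⟩ := exists_sums_ne_zero K ι
  choose s hs using h.surj
  have hs0 : s 0 = 0 := h.eq_zero (hs 0)
  obtain ⟨ln, c, hc⟩ := hι (fun w => f (∑ j, l j * s (w j)))
  -- the active coordinates
  set J : Finset ι := Finset.univ.filter (fun j => ln.idxFun j = none) with hJ
  have hJn : J.Nonempty := by
    obtain ⟨i, hi⟩ := ln.proper
    exact ⟨i, by simp [hJ, hi]⟩
  set a : K := ∑ j ∈ J, l j with ha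
  have ha0 : a ≠ 0 := hl J hJn
  set b : K := ∑ j ∈ Finset.univ.filter (fun j => ¬ ln.idxFun j = none), l j * s ((ln.idxFun j).getD 0)
    with hb
  have key : ∀ i : Fin (r + 1), ∑ j, l j * s (ln i j) = b + a * s i := by
    intro i
    rw [← Finset.sum_filter_add_sum_filter_not Finset.univ (fun j => ln.idxFun j = none), add_comm,
      ha, Finset.sum_mul]
    congr 1
    · refine Finset.sum_congr rfl fun j hj => ?_
      have h1 : ¬ ln.idxFun j = none := (Finset.mem_filter.1 hj).2
      obtain ⟨y, hy⟩ := Option.ne_none_iff_exists'.1 h1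
      show l j * s ((ln.idxFun j).getD i) = l j * s ((ln.idxFun j).getD 0)
      rw [hy]
      rfl
    · refine Finset.sum_congr rfl fun j hj => ?_
      have h1 : ln.idxFun j = none := (Finset.mem_filter.1 hj).2
      show l j * s ((ln.idxFun j).getD i) = l j * s i
      rw [h1]
      rfl
  have hmono : ∀ i, f (b + a * s i) = f b := by
    intro i
    have h1 := hc i
    have h2 := hc 0
    simp only [key] at h1 h2
    rw [hs0, mul_zero, add_zero] at h2
    rw [h1, h2]
  have hb0 : b ≠ 0 := by
    intro hb0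
    have h1 := hmono z
    rw [hb0, zero_add, h.zero] at h1
    have h2 := h.eq_zero h1
    rcases mul_eq_zero.1 h2 with h3 | h3
    · exact ha0 h3
    · apply hz0
      rw [← hs z, h3, h.zero]
  -- the coset to look at
  set i : Fin (r + 1) := f (b / a * s z) with hi
  obtain ⟨g, hg, hge⟩ := (h.fib _ _).1 (hmono i).symm
  refine ⟨g, hg, 1, G.one_mem, ?_⟩
  have h3 : f (s i) = f (b / a * s z) := hs i
  have h4 : f (a / b * s i) = f (s z) := by
    have := h.mul_left (a / b) h3
    rw [this]
    congr 1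
    field_simp
  rw [← hs z, ← h4]
  congr 1
  have h5 : a * s i = b * ((g : K) - 1) := by linear_combination hge
  have h6 : a / b * s i = (g : K) - 1 := by
    rw [div_mul_eq_mul_div, h5]
    field_simp
  rw [h6]
  push_cast
  ring

end

/-! ### Finite fields -/

section Fin

variable {K : Type} [Field K] [Fintype K] [DecidableEq K]

/-- If `A` is a set of elements of a finite field with `q` elements, closed under multiplication,
and `#A ^ 4 > q ^ 3` then every nonzero element multiplied by a suitable element of `A` is a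
difference of two elements of `A`. -/
theorem diff_of_card (A : Finset K) (c : K) (hmul : ∀ x ∈ A, ∀ y ∈ A, x * y ∈ A)
    (hc : c ≠ 0)
    (hcard : (Fintype.card K) ^ 3 < A.card ^ 4) :
    ∃ x ∈ A, ∃ y ∈ A, ∃ z ∈ A, y - z = c * x := by
  by_contra hno
  push Not at hno
  set q : ℤ := (Fintype.card K : ℤ) with hq
  set a : ℤ := (A.card : ℤ) with ha
  let n : K → K → ℤ := fun m b => ((A.filter (fun x => m * x + b ∈ A)).card : ℤ)
  have hn : ∀ m b, n m b = ∑ x ∈ A, if m * x + b ∈ A then (1 : ℤ) else 0 := by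
    intro m b
    simp only [n, Finset.card_filter]
    push_cast
    rfl
  -- first moment
  have h1 : ∑ m, ∑ b, n m b = q * (a * a) := by
    have e1 : ∀ m : K, ∑ b, n m b = a * a := by
      intro m
      simp only [hn]
      rw [Finset.sum_comm]
      have e2 : ∀ x ∈ A, ∑ b : K, (if m * x + b ∈ A then (1 : ℤ) else 0) = a := by
        intro x _
        rw [← Equiv.sum_comp (Equiv.addLeft (-(m * x)))]
        simp only [Equiv.coe_addLeft, add_neg_cancel_left]
        simp [ha]
      rw [Finset.sum_congr rfl e2, Finset.sum_const, nsmul_eq_mul]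
    simp only [e1]
    rw [Finset.sum_const, nsmul_eq_mul, Finset.card_univ]
  -- second moment
  have h2 : ∑ m, ∑ b, n m b ^ 2 ≤ q * (a * a) + a * a * (a * a) := by
    have e1 : ∀ m b, n m b ^ 2 = ∑ x ∈ A, ∑ x' ∈ A,
        if (m * x + b ∈ A ∧ m * x' + b ∈ A) then (1 : ℤ) else 0 := by
      intro m b
      rw [hn, sq, Finset.sum_mul_sum]
      refine Finset.sum_congr rfl fun x _ => Finset.sum_congr rfl fun x' _ => ?_
      by_cases h : m * x + b ∈ A <;> by_cases h' : m * x' + b ∈ A <;> simp [h, h']
    have e2 : ∑ m, ∑ b, n m b ^ 2 = ∑ x ∈ A, ∑ x' ∈ A, ∑ m : K, ∑ b : K,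
        if (m * x + b ∈ A ∧ m * x' + b ∈ A) then (1 : ℤ) else 0 := by
      simp only [e1]
      calc ∑ m : K, ∑ b : K, ∑ x ∈ A, ∑ x' ∈ A,
            (if (m * x + b ∈ A ∧ m * x' + b ∈ A) then (1 : ℤ) else 0)
          = ∑ m : K, ∑ x ∈ A, ∑ b : K, ∑ x' ∈ A,
            (if (m * x + b ∈ A ∧ m * x' + b ∈ A) then (1 : ℤ) else 0) :=
              Finset.sum_congr rfl fun m _ => Finset.sum_comm
        _ = ∑ m : K, ∑ x ∈ A, ∑ x' ∈ A, ∑ b : K,
            (if (m * x + b ∈ A ∧ m * x' + b ∈ A) then (1 : ℤ) else 0) :=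
              Finset.sum_congr rfl fun m _ => Finset.sum_congr rfl fun x _ => Finset.sum_comm
        _ = ∑ x ∈ A, ∑ m : K, ∑ x' ∈ A, ∑ b : K,
            (if (m * x + b ∈ A ∧ m * x' + b ∈ A) then (1 : ℤ) else 0) := Finset.sum_comm
        _ = _ := Finset.sum_congr rfl fun x _ => Finset.sum_comm
    rw [e2]
    have e3 : ∀ x ∈ A, ∑ x' ∈ A, ∑ m : K, ∑ b : K,
        (if (m * x + b ∈ A ∧ m * x' + b ∈ A) then (1 : ℤ) else 0) ≤ q * a + a * (a * a) := by
      intro x hx
      rw [← Finset.add_sum_erase A _ hx]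
      refine add_le_add ?_ ?_
      · -- the diagonal term
        have : ∀ m : K, ∑ b : K, (if (m * x + b ∈ A ∧ m * x + b ∈ A) then (1 : ℤ) else 0) = a := by
          intro m
          rw [← Equiv.sum_comp (Equiv.addLeft (-(m * x)))]
          simp only [Equiv.coe_addLeft, add_neg_cancel_left, and_self]
          simp [ha]
        simp only [this]
        rw [Finset.sum_const, nsmul_eq_mul, Finset.card_univ]
      · have e4 : ∀ x' ∈ A.erase x, ∑ m : K, ∑ b : K,
            (if (m * x + b ∈ A ∧ m * x' + b ∈ A) then (1 : ℤ) else 0) ≤ a * a := by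
          intro x' hx'
          have hne : x' ≠ x := Finset.ne_of_mem_erase hx'
          rw [← Fintype.sum_prod_type' (f := fun m b =>
            (if (m * x + b ∈ A ∧ m * x' + b ∈ A) then (1 : ℤ) else 0))]
          rw [← Finset.sum_filter, Finset.sum_const, nsmul_eq_mul, mul_one]
          have e5 : (Finset.univ.filter (fun p : K × K => p.1 * x + p.2 ∈ A ∧ p.1 * x' + p.2 ∈ A)).card
              ≤ (A ×ˢ A).card := by
            refine Finset.card_le_card_of_injOn (fun p => (p.1 * x + p.2, p.1 * x' + p.2)) ?_ ?_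
            · intro p hp
              have := (Finset.mem_filter.1 hp).2
              exact Finset.mem_coe.2 (Finset.mem_product.2 this)
            · rintro ⟨m, b⟩ _ ⟨m', b'⟩ _ he
              simp only [Prod.mk.injEq] at he
              obtain ⟨he1, he2⟩ := he
              have h3 : (m - m') * (x' - x) = 0 := by linear_combination he2 - he1
              rcases mul_eq_zero.1 h3 with h4 | h4
              · have h5 : m = m' := sub_eq_zero.1 h4
                subst h5
                simp only [Prod.mk.injEq, true_and]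
                linear_combination he1
              · exact absurd (sub_eq_zero.1 h4) hne
          rw [Finset.card_product] at e5
          have e6 : ((Finset.univ.filter (fun p : K × K =>
            p.1 * x + p.2 ∈ A ∧ p.1 * x' + p.2 ∈ A)).card : ℤ) ≤ ((A.card * A.card : ℕ) : ℤ) := by
            exact_mod_cast e5
          rw [Nat.cast_mul] at e6
          exact e6
        refine (Finset.sum_le_sum e4).trans ?_
        rw [Finset.sum_const, nsmul_eq_mul]
        have e7 : ((A.erase x).card : ℤ) ≤ a := by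
          rw [ha]
          exact_mod_cast Finset.card_le_card (Finset.erase_subset x A)
        have e8 : 0 ≤ a * a := mul_self_nonneg a
        exact mul_le_mul_of_nonneg_right e7 e8
    refine (Finset.sum_le_sum e3).trans ?_
    rw [Finset.sum_const, nsmul_eq_mul]
    apply le_of_eq
    ring
  -- the variance
  have h3 : ∑ m, ∑ b, (q * n m b - a * a) ^ 2 ≤ q ^ 3 * (a * a) := by
    have e1 : ∑ m, ∑ b, (q * n m b - a * a) ^ 2
        = q ^ 2 * (∑ m, ∑ b, n m b ^ 2) - 2 * q * (a * a) * (∑ m, ∑ b, n m b)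
          + q * q * (a * a) ^ 2 := by
      have e2 : ∀ m : K, ∑ b, (q * n m b - a * a) ^ 2 =
          q ^ 2 * (∑ b, n m b ^ 2) - 2 * q * (a * a) * (∑ b, n m b) + q * (a * a) ^ 2 := by
        intro m
        rw [Finset.mul_sum, Finset.mul_sum, ← Finset.sum_sub_distrib]
        have e3 : q * (a * a) ^ 2 = ∑ _b : K, (a * a) ^ 2 := by
          rw [Finset.sum_const, nsmul_eq_mul, Finset.card_univ]
        rw [e3, ← Finset.sum_add_distrib]
        exact Finset.sum_congr rfl fun b _ => by ring
      simp only [e2]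
      rw [Finset.sum_add_distrib, Finset.sum_sub_distrib, ← Finset.mul_sum, ← Finset.mul_sum,
        Finset.sum_const, nsmul_eq_mul, Finset.card_univ]
      ring
    rw [e1, h1]
    have hq2 : 0 ≤ q ^ 2 := sq_nonneg q
    nlinarith [mul_le_mul_of_nonneg_left h2 hq2]
  -- the pairs with `m ∈ c A`, `b ∈ A`
  have hzero : ∀ x ∈ A, ∀ b ∈ A, n (c * x) b = 0 := by
    intro x hx b hb
    simp only [n]
    rw [Int.natCast_eq_zero, Finset.card_eq_zero, Finset.filter_eq_empty_iff]
    intro x' hx' hmem
    exact hno (x * x') (hmul x hx x' hx') (c * x * x' + b) hmem b hb (by ring)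
  have h4 : a * a * (a * a) ^ 2 ≤ ∑ m, ∑ b, (q * n m b - a * a) ^ 2 := by
    have e1 : ∑ m ∈ A.image (fun x => c * x), ∑ b ∈ A, (q * n m b - a * a) ^ 2
        ≤ ∑ m, ∑ b, (q * n m b - a * a) ^ 2 := by
      refine (Finset.sum_le_sum fun m _ => ?_).trans
        (Finset.sum_le_sum_of_subset_of_nonneg (Finset.subset_univ _) fun m _ _ =>
          Finset.sum_nonneg fun b _ => sq_nonneg _)
      exact Finset.sum_le_sum_of_subset_of_nonneg (Finset.subset_univ _) fun b _ _ => sq_nonneg _
    refine le_trans (le_of_eq ?_) e1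
    rw [Finset.sum_image (fun x _ y _ h => mul_left_cancel₀ hc h)]
    have e2 : ∀ x ∈ A, ∑ b ∈ A, (q * n (c * x) b - a * a) ^ 2 = a * (a * a) ^ 2 := by
      intro x hx
      have e3 : ∀ b ∈ A, (q * n (c * x) b - a * a) ^ 2 = (a * a) ^ 2 := by
        intro b hb
        rw [hzero x hx b hb]
        ring
      rw [Finset.sum_congr rfl e3, Finset.sum_const, nsmul_eq_mul]
    rw [Finset.sum_congr rfl e2, Finset.sum_const, nsmul_eq_mul]
    ring
  have h5 : a * a * (a * a) ^ 2 ≤ q ^ 3 * (a * a) := h4.trans h3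
  have h6 : q ^ 3 < a ^ 4 := by
    rw [hq, ha]
    exact_mod_cast hcard
  have ha0 : 0 < a := by
    rcases (Nat.cast_nonneg A.card : (0 : ℤ) ≤ _).lt_or_eq with h | h
    · exact h
    · rw [← ha] at h
      rw [← h] at h6
      have : 0 ≤ q ^ 3 := by positivity
      simp at h6
      omega
  have h7 : 0 < a * a := mul_pos ha0 ha0
  nlinarith [mul_lt_mul_of_pos_right h6 h7]

end Fin

section

variable {r : ℕ} {K : Type} [Field K] {G : Subgroup Kˣ} {f : K → Fin (r + 1)}

theorem QuotMap.unit_ne_zero (h : QuotMap G f) (u : Kˣ) : f (u : K) ≠ 0 :=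
  fun hu => u.ne_zero (h.eq_zero hu)

theorem QuotMap.card_eq (h : QuotMap G f) [Fintype K] :
    Fintype.card K = 1 + r * Nat.card G := by
  classical
  have h1 : Fintype.card K = ∑ i : Fin (r + 1), (Finset.univ.filter (fun x : K => f x = i)).card := by
    rw [← Finset.card_univ]
    exact Finset.card_eq_sum_card_fiberwise (fun x _ => Finset.mem_coe.2 (Finset.mem_univ (f x)))
  rw [h1, Fin.sum_univ_succ]
  congr 1
  · rw [Finset.card_eq_one]
    refine ⟨0, ?_⟩
    ext x
    simp only [Finset.mem_filter, Finset.mem_univ, true_and, Finset.mem_singleton]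
    exact ⟨fun hx => h.eq_zero hx, fun hx => by rw [hx, h.zero]⟩
  · have h2 : ∀ i : Fin r, (Finset.univ.filter (fun x : K => f x = i.succ)).card = Nat.card G := by
      intro i
      obtain ⟨s, hs⟩ := h.surj i.succ
      have hs0 : s ≠ 0 := by
        rintro rfl
        rw [h.zero] at hs
        exact (Fin.succ_ne_zero i) hs.symm
      have h3 : (Finset.univ.filter (fun x : K => f x = i.succ)) =
          (Finset.univ : Finset G).image (fun g : G => s * ((g : Kˣ) : K)) := by
        ext x
        simp only [Finset.mem_filter, Finset.mem_univ, true_and, Finset.mem_image]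
        constructor
        · intro hx
          rw [← hs, eq_comm] at hx
          obtain ⟨g, hg, hgx⟩ := (h.fib _ _).1 hx
          exact ⟨⟨g, hg⟩, hgx.symm⟩
        · rintro ⟨g, rfl⟩
          rw [← hs, eq_comm]
          exact (h.fib _ _).2 ⟨g, g.2, rfl⟩
      rw [h3, Finset.card_image_of_injective, Finset.card_univ, Nat.card_eq_fintype_card]
      intro g g' hgg
      have h4 := mul_left_cancel₀ hs0 hgg
      exact Subtype.ext (Units.ext h4)
    rw [Finset.sum_congr rfl fun i _ => h2 i, Finset.sum_const, Finset.card_univ, Fintype.card_fin,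
      smul_eq_mul]

theorem QuotMap.diff_of_large (h : QuotMap G f) [Fintype K] (hr : 0 < r)
    (hK : 16 * r ^ 4 < Fintype.card K) (z : Fin (r + 1)) :
    ∃ g ∈ G, ∃ g' ∈ G, z = f (1 * ((g : Kˣ) : K) + (-1) * ((g' : Kˣ) : K)) := by
  classical
  by_cases hz0 : z = 0
  · exact ⟨1, G.one_mem, 1, G.one_mem, by simp [hz0, h.zero]⟩
  obtain ⟨c, hc⟩ := h.surj z
  have hc0 : c ≠ 0 := by
    rintro rfl
    rw [h.zero] at hc
    exact hz0 hc.symm
  set A : Finset K := (Finset.univ : Finset G).image (fun g : G => ((g : Kˣ) : K)) with hA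
  have hAmem : ∀ x, x ∈ A ↔ ∃ g ∈ G, ((g : Kˣ) : K) = x := by
    intro x
    simp [hA]
  have hAcard : A.card = Nat.card G := by
    rw [hA, Finset.card_image_of_injective, Finset.card_univ, Nat.card_eq_fintype_card]
    intro g g' hgg
    exact Subtype.ext (Units.ext hgg)
  have hq := h.card_eq
  rw [← hAcard] at hq
  have hcard : (Fintype.card K) ^ 3 < A.card ^ 4 := by
    set q := Fintype.card K
    set a := A.card
    have h1 : q ≤ 2 * (r * a) := by
      have : 1 ≤ r * a := by
        by_contra hh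
        have h0 : r * a = 0 := by omega
        rw [h0] at hq
        have : 0 < r ^ 4 := by positivity
        omega
      omega
    have h2 : q ^ 4 ≤ 16 * (r ^ 4 * a ^ 4) := by
      calc q ^ 4 ≤ (2 * (r * a)) ^ 4 := Nat.pow_le_pow_left h1 4
        _ = 16 * (r ^ 4 * a ^ 4) := by ring
    have hr4 : 0 < 16 * r ^ 4 := by positivity
    have hq0 : 0 < q := by omega
    have hq3 : 0 < q ^ 3 := by positivity
    have h3 : (16 * r ^ 4) * q ^ 3 < (16 * r ^ 4) * a ^ 4 := by
      calc (16 * r ^ 4) * q ^ 3 < q * q ^ 3 := Nat.mul_lt_mul_of_pos_right hK hq3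
        _ = q ^ 4 := by ring
        _ ≤ 16 * (r ^ 4 * a ^ 4) := h2
        _ = (16 * r ^ 4) * a ^ 4 := by ring
    exact Nat.lt_of_mul_lt_mul_left h3
  obtain ⟨x, hx, y, hy, w, hw, he⟩ := diff_of_card A c
    (by
      intro x hx y hy
      obtain ⟨g, hg, rfl⟩ := (hAmem x).1 hx
      obtain ⟨g', hg', rfl⟩ := (hAmem y).1 hy
      exact (hAmem _).2 ⟨g * g', G.mul_mem hg hg', by push_cast; rfl⟩)
    hc0 hcard
  obtain ⟨gx, hgx, rfl⟩ := (hAmem x).1 hx
  obtain ⟨gy, hgy, rfl⟩ := (hAmem y).1 hy
  obtain ⟨gw, hgw, rfl⟩ := (hAmem w).1 hw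
  refine ⟨gy, hgy, gw, hgw, ?_⟩
  rw [← hc]
  refine (h.fib _ _).2 ⟨gx, hgx, ?_⟩
  rw [← he]
  ring

end

end Pool.Agent.Y85.Hyp
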