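import Mathlib

/-!
# Triples of a finite abelian group up to scaling and permutation
-/

set_option autoImplicit false

namespace Pool.Agent.Y85.Hyp

open Finset

section Orb

variable {G : Type}

theorem three {a b c x y z : G} (h : a ::ₘ b ::ₘ ({c} : Multiset G) = x ::ₘ y ::ₘ {z}) :
    (a = x ∧ b = y ∧ c = z) ∨ (a = x ∧ b = z ∧ c = y) ∨ (a = y ∧ b = x ∧ c = z) ∨
    (a = y ∧ b = z ∧ c = x) ∨ (a = z ∧ b = x ∧ c = y) ∨ (a = z ∧ b = y ∧ c = x) := by
  classical
  have two : ∀ {p q u v : G}, p ::ₘ ({q} : Multiset G) = u ::ₘ {v} →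
      (p = u ∧ q = v) ∨ (p = v ∧ q = u) := by
    intro p q u v h
    rcases Multiset.cons_eq_cons.1 h with ⟨h1, h2⟩ | ⟨_, cs, h1, h2⟩
    · exact Or.inl ⟨h1, by simpa using h2⟩
    · right
      have h3 : cs = 0 := by
        have := congrArg Multiset.card h1
        simpa using this
      subst h3
      simp only [Multiset.cons_zero, Multiset.singleton_inj] at h1 h2
      exact ⟨h2.symm, h1⟩
  have ha : a ∈ x ::ₘ y ::ₘ ({z} : Multiset G) := by rw [← h]; exact Multiset.mem_cons_self _ _
  simp only [Multiset.mem_cons, Multiset.mem_singleton] at ha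
  rcases ha with rfl | rfl | rfl
  · rcases two ((Multiset.cons_inj_right a).1 h) with ⟨h1, h2⟩ | ⟨h1, h2⟩
    · exact Or.inl ⟨rfl, h1, h2⟩
    · exact Or.inr (Or.inl ⟨rfl, h1, h2⟩)
  · rw [Multiset.cons_swap x a] at h
    rcases two ((Multiset.cons_inj_right a).1 h) with ⟨h1, h2⟩ | ⟨h1, h2⟩ <;> simp [h1, h2]
  · have h5 : x ::ₘ y ::ₘ ({a} : Multiset G) = a ::ₘ x ::ₘ {y} := by
      rw [show y ::ₘ ({a} : Multiset G) = a ::ₘ {y} from Multiset.cons_swap y a 0,
        Multiset.cons_swap x a]
    rw [h5] at h
    rcases two ((Multiset.cons_inj_right a).1 h) with ⟨h1, h2⟩ | ⟨h1, h2⟩ <;> simp [h1, h2]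

variable [CommGroup G]

/-- The unordered triple `{a, b, c}` up to scaling. -/
def orb (a b c : G) : Set (Multiset G) :=
  Set.range fun g : G => (g * a) ::ₘ (g * b) ::ₘ {g * c}

theorem orb_swap1 (a b c : G) : orb a b c = orb b a c := by
  unfold orb
  congr 1
  funext g
  exact Multiset.cons_swap _ _ _

theorem orb_swap2 (a b c : G) : orb a b c = orb a c b := by
  unfold orb
  congr 1
  funext g
  congr 1
  exact Multiset.cons_swap _ _ _

theorem orb_scale (h a b c : G) : orb (h * a) (h * b) (h * c) = orb a b c := by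
  ext m
  constructor
  · rintro ⟨g, rfl⟩
    exact ⟨g * h, by simp only [mul_assoc]⟩
  · rintro ⟨g, rfl⟩
    refine ⟨g * h⁻¹, ?_⟩
    simp only [mul_assoc, inv_mul_cancel_left]

theorem orb_eq_imp {a b x p q s : G} (h : orb a b x = orb p q s) :
    ∃ g : G, a ::ₘ b ::ₘ {x} = (g * p) ::ₘ (g * q) ::ₘ ({g * s} : Multiset G) := by
  have h1 : a ::ₘ b ::ₘ ({x} : Multiset G) ∈ orb a b x := ⟨1, by simp⟩
  rw [h] at h1
  obtain ⟨g, hg⟩ := h1
  exact ⟨g, hg.symm⟩

variable (G) in
/-- The set of unordered triples up to scaling. -/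
abbrev Om : Type := {ω : Set (Multiset G) // ∃ a b c : G, ω = orb a b c}

/-- The class of a triple. -/
def tri (a b c : G) : Om G := ⟨orb a b c, a, b, c, rfl⟩

theorem tri_swap1 (a b c : G) : tri a b c = tri b a c := Subtype.ext (orb_swap1 a b c)

theorem tri_swap2 (a b c : G) : tri a b c = tri a c b := Subtype.ext (orb_swap2 a b c)

theorem tri_scale (h a b c : G) : tri (h * a) (h * b) (h * c) = tri a b c :=
  Subtype.ext (orb_scale h a b c)

theorem tri_surj (ω : Om G) : ∃ a b c : G, tri a b c = ω := by
  obtain ⟨ω, a, b, c, rfl⟩ := ω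
  exact ⟨a, b, c, rfl⟩

/-- If a relation on triples is symmetric and invariant under scaling then it only depends on the
class of the triple. -/
theorem rel_of_tri_eq (R : G → G → G → Prop) (h1 : ∀ a b c, R a b c → R b a c)
    (h2 : ∀ a b c, R a b c → R a c b) (h3 : ∀ g a b c, R a b c → R (g * a) (g * b) (g * c))
    {a b c a' b' c' : G} (h : tri a b c = tri a' b' c') (hR : R a' b' c') : R a b c := by
  obtain ⟨g, hg⟩ := orb_eq_imp (congrArg Subtype.val h)
  have h4 := h3 g _ _ _ hR
  rcases three hg with ⟨e1, e2, e3⟩ | ⟨e1, e2, e3⟩ | ⟨e1, e2, e3⟩ | ⟨e1, e2, e3⟩ | ⟨e1, e2, e3⟩ |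
    ⟨e1, e2, e3⟩ <;> rw [e1, e2, e3]
  · exact h4
  · exact h2 _ _ _ h4
  · exact h1 _ _ _ h4
  · exact h2 _ _ _ (h1 _ _ _ h4)
  · exact h1 _ _ _ (h2 _ _ _ h4)
  · exact h1 _ _ _ (h2 _ _ _ (h1 _ _ _ h4))

instance [Finite G] : Finite (Om G) := by
  refine Finite.of_surjective (fun t : G × G × G => tri t.1 t.2.1 t.2.2) ?_
  intro ω
  obtain ⟨a, b, c, h⟩ := tri_surj ω
  exact ⟨(a, b, c), h⟩

section count

variable [Fintype G] [DecidableEq G] [Fintype (Om G)] [DecidableEq (Om G)]

/-- At most nine `x` have `tri a b x = ω`. -/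
theorem fib_le (a b : G) (ω : Om G) (s : Finset G) :
    (s.filter (fun x => tri a b x = ω)).card ≤ 9 := by
  obtain ⟨p, q, t, rfl⟩ := tri_surj ω
  have h1 : s.filter (fun x => tri a b x = tri p q t) ⊆
      (({p, q, t} : Finset G) ×ˢ ({p, q, t} : Finset G)).image (fun y => a * y.1⁻¹ * y.2) := by
    intro x hx
    have hx2 := (Finset.mem_filter.1 hx).2
    obtain ⟨g, hg⟩ := orb_eq_imp (congrArg Subtype.val hx2)
    rw [Finset.mem_image]
    rcases three hg with ⟨e1, e2, e3⟩ | ⟨e1, e2, e3⟩ | ⟨e1, e2, e3⟩ | ⟨e1, e2, e3⟩ | ⟨e1, e2, e3⟩ |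
      ⟨e1, e2, e3⟩
    · exact ⟨(p, t), by simp, by simp [e1, e3]⟩
    · exact ⟨(p, q), by simp, by simp [e1, e3]⟩
    · exact ⟨(q, t), by simp, by simp [e1, e3]⟩
    · exact ⟨(q, p), by simp, by simp [e1, e3]⟩
    · exact ⟨(t, q), by simp, by simp [e1, e3]⟩
    · exact ⟨(t, p), by simp, by simp [e1, e3]⟩
  refine (Finset.card_le_card h1).trans (Finset.card_image_le.trans ?_)
  rw [Finset.card_product]
  have h3 : (({p, q, t} : Finset G)).card ≤ 3 := Finset.card_le_three
  calc _ ≤ 3 * 3 := Nat.mul_le_mul h3 h3
    _ = 9 := rfl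

theorem card_image_tri (a b : G) :
    Fintype.card G ≤ 9 * ((Finset.univ : Finset G).image (fun x => tri a b x)).card := by
  have := Finset.card_le_mul_card_image (f := fun x => tri a b x) (Finset.univ : Finset G) 9
    (fun ω _ => fib_le a b ω _)
  rwa [Finset.card_univ] at this

/-- The number of sets of classes containing all classes `tri 1 ε x`. -/
theorem card_super (ε : G) :
    ((Finset.univ : Finset (Finset (Om G))).filter
      (fun T => ∀ x : G, tri 1 ε x ∈ T)).card * 2 ^ (Fintype.card G / 9) ≤
      2 ^ Fintype.card (Om G) := by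
  set E : Finset (Om G) := (Finset.univ : Finset G).image (fun x => tri 1 ε x) with hE
  have h1 : (Finset.univ : Finset (Finset (Om G))).filter (fun T => ∀ x : G, tri 1 ε x ∈ T) =
      Finset.Icc E Finset.univ := by
    ext T
    simp only [Finset.mem_filter, Finset.mem_univ, true_and, Finset.mem_Icc,
      Finset.subset_univ, and_true, hE, Finset.image_subset_iff, forall_true_left]
  rw [h1, Finset.card_Icc_finset (Finset.subset_univ _), Finset.card_univ, ← pow_add]
  apply Nat.pow_le_pow_right (by norm_num)
  have h2 := card_image_tri (1 : G) ε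
  rw [← hE] at h2
  have h3 : E.card ≤ Fintype.card (Om G) := Finset.card_le_univ E
  omega

/-- A union bound lemma: the sets `T` which contain no pair `{u x, v x}`, `x ∈ X`. -/
theorem card_avoid {Ω : Type} [Fintype Ω] [DecidableEq Ω] (u v : G → Ω) (X : Finset G)
    (hX : ∀ x ∈ X, ∀ y ∈ X, x ≠ y → u x ≠ u y ∧ u x ≠ v y ∧ v x ≠ u y ∧ v x ≠ v y) :
    ((Finset.univ : Finset (Finset Ω)).filter
      (fun T => ∀ x ∈ X, ¬ (u x ∈ T ∧ v x ∈ T))).card * 4 ^ X.card ≤
      3 ^ X.card * 2 ^ Fintype.card Ω := by
  induction X using Finset.induction_on with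
  | empty => simp
  | insert a X ha ih =>
    have hX' := ih fun x hx y hy hxy =>
      hX x (Finset.mem_insert_of_mem hx) y (Finset.mem_insert_of_mem hy) hxy
    set B := (Finset.univ : Finset (Finset Ω)).filter
      (fun T => ∀ x ∈ X, ¬ (u x ∈ T ∧ v x ∈ T)) with hB
    set B' := (Finset.univ : Finset (Finset Ω)).filter
      (fun T => ∀ x ∈ insert a X, ¬ (u x ∈ T ∧ v x ∈ T)) with hB'
    have hsub : B' ⊆ B := by
      intro T hT
      rw [hB, Finset.mem_filter]
      refine ⟨Finset.mem_univ _, fun x hx => ?_⟩
      exact (Finset.mem_filter.1 hT).2 x (Finset.mem_insert_of_mem hx)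
    have h1 : B'.card ≤ 3 * (B \ B').card := by
      set φ : Finset Ω → Finset Ω := fun T => T ∪ {u a, v a} with hφ
      have hmaps : ∀ T ∈ B', φ T ∈ B \ B' := by
        intro T hT
        rw [Finset.mem_sdiff]
        constructor
        · rw [hB, Finset.mem_filter]
          refine ⟨Finset.mem_univ _, fun x hx => ?_⟩
          have h2 := (Finset.mem_filter.1 hT).2 x (Finset.mem_insert_of_mem hx)
          have hxa : x ≠ a := by
            rintro rfl
            exact ha hx
          obtain ⟨e1, e2, e3, e4⟩ := hX x (Finset.mem_insert_of_mem hx) a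
            (Finset.mem_insert_self _ _) hxa
          simp only [hφ, Finset.mem_union, Finset.mem_insert, Finset.mem_singleton, e1, e2, e3, e4,
            or_false]
          exact h2
        · rw [hB', Finset.mem_filter]
          intro h2
          exact h2.2 a (Finset.mem_insert_self _ _) ⟨by simp [hφ], by simp [hφ]⟩
      refine (Finset.card_le_mul_card_image (f := φ) B' 3 ?_).trans
        (Nat.mul_le_mul_left 3 (Finset.card_le_card ?_))
      · intro S _
        have h3 : (B'.filter (fun T => φ T = S)).card ≤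
            (({∅, {u a}, {v a}} : Finset (Finset Ω))).card := by
          refine Finset.card_le_card_of_injOn (fun T => T ∩ {u a, v a}) ?_ ?_
          · intro T hT
            have hT1 := (Finset.mem_filter.1 (Finset.mem_filter.1 hT).1).2 a
              (Finset.mem_insert_self _ _)
            simp only [Finset.coe_insert, Finset.coe_singleton, Set.mem_insert_iff,
              Set.mem_singleton_iff]
            by_cases hu : u a ∈ T
            · have hv : v a ∉ T := fun hv => hT1 ⟨hu, hv⟩
              right; left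
              ext w
              simp only [Finset.mem_inter, Finset.mem_insert, Finset.mem_singleton]
              constructor
              · rintro ⟨hw, rfl | rfl⟩
                · rfl
                · exact absurd hw hv
              · rintro rfl
                exact ⟨hu, Or.inl rfl⟩
            · by_cases hv : v a ∈ T
              · right; right
                ext w
                simp only [Finset.mem_inter, Finset.mem_insert, Finset.mem_singleton]
                constructor
                · rintro ⟨hw, rfl | rfl⟩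
                  · exact absurd hw hu
                  · rfl
                · rintro rfl
                  exact ⟨hv, Or.inr rfl⟩
              · left
                ext w
                simp only [Finset.mem_inter, Finset.mem_insert, Finset.mem_singleton,
                  Finset.notMem_empty, iff_false, not_and, not_or]
                intro hw
                exact ⟨fun h => hu (h ▸ hw), fun h => hv (h ▸ hw)⟩
          · intro T hT T' hT' he
            have e1 : T ∪ {u a, v a} = T' ∪ {u a, v a} :=
              (Finset.mem_filter.1 hT).2.trans (Finset.mem_filter.1 hT').2.symm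
            have e2 : T ∩ {u a, v a} = T' ∩ {u a, v a} := he
            ext w
            by_cases hw : w ∈ ({u a, v a} : Finset Ω)
            · have := Finset.ext_iff.1 e2 w
              simpa only [Finset.mem_inter, hw, and_true] using this
            · have := Finset.ext_iff.1 e1 w
              simpa only [Finset.mem_union, hw, or_false] using this
        exact h3.trans Finset.card_le_three
      · intro S hS
        obtain ⟨T, hT, rfl⟩ := Finset.mem_image.1 hS
        exact hmaps T hT
    have h2 : (B \ B').card + B'.card = B.card := Finset.card_sdiff_add_card_eq_card hsub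
    rw [Finset.card_insert_of_notMem ha, pow_succ, pow_succ]
    have h4 : B'.card * 4 ≤ 3 * B.card := by omega
    calc B'.card * (4 ^ X.card * 4) = (B'.card * 4) * 4 ^ X.card := by ring
      _ ≤ (3 * B.card) * 4 ^ X.card := Nat.mul_le_mul_right _ h4
      _ = 3 * (B.card * 4 ^ X.card) := by ring
      _ ≤ 3 * (3 ^ X.card * 2 ^ Fintype.card Ω) := Nat.mul_le_mul_left 3 hX'
      _ = 3 ^ X.card * 3 * 2 ^ Fintype.card Ω := by ring

/-- There is a large set of positions at which the events are independent. -/
theorem exists_indep (a b c d : G) : ∃ X : Finset G, Fintype.card G ≤ 36 * X.card ∧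
    ∀ x ∈ X, ∀ y ∈ X, x ≠ y → tri a b x ≠ tri a b y ∧ tri a b x ≠ tri c d y ∧
      tri c d x ≠ tri a b y ∧ tri c d x ≠ tri c d y := by
  classical
  set P : Finset G → Prop := fun X => ∀ x ∈ X, ∀ y ∈ X, x ≠ y → tri a b x ≠ tri a b y ∧
    tri a b x ≠ tri c d y ∧ tri c d x ≠ tri a b y ∧ tri c d x ≠ tri c d y with hP
  obtain ⟨X, hX1, hX2⟩ := Finset.exists_max_image
    ((Finset.univ : Finset (Finset G)).filter P) Finset.card ⟨∅, by simp [hP]⟩
  rw [Finset.mem_filter] at hX1
  refine ⟨X, ?_, hX1.2⟩
  -- every element conflicts with an element of `X`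
  have hconf : ∀ y : G, ∃ x ∈ X, tri a b y = tri a b x ∨ tri a b y = tri c d x ∨
      tri c d y = tri a b x ∨ tri c d y = tri c d x := by
    intro y
    by_cases hy : y ∈ X
    · exact ⟨y, hy, Or.inl rfl⟩
    · by_contra hno
      push Not at hno
      have h1 : P (insert y X) := by
        intro p hp q hq hpq
        rcases Finset.mem_insert.1 hp with hp1 | hp1
        · rcases Finset.mem_insert.1 hq with hq1 | hq1
          · exact absurd (hp1.trans hq1.symm) hpq
          · rw [hp1]
            exact hno q hq1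
        · rcases Finset.mem_insert.1 hq with hq1 | hq1
          · rw [hq1]
            obtain ⟨e1, e2, e3, e4⟩ := hno p hp1
            exact ⟨e1.symm, e3.symm, e2.symm, e4.symm⟩
          · exact hX1.2 p hp1 q hq1 hpq
      have h2 := hX2 (insert y X) (Finset.mem_filter.2 ⟨Finset.mem_univ _, h1⟩)
      rw [Finset.card_insert_of_notMem hy] at h2
      omega
  have hcov : (Finset.univ : Finset G) ⊆ X.biUnion (fun x =>
      ((Finset.univ.filter (fun y => tri a b y = tri a b x)) ∪
        (Finset.univ.filter (fun y => tri a b y = tri c d x))) ∪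
      ((Finset.univ.filter (fun y => tri c d y = tri a b x)) ∪
        (Finset.univ.filter (fun y => tri c d y = tri c d x)))) := by
    intro y _
    obtain ⟨x, hx, h⟩ := hconf y
    rw [Finset.mem_biUnion]
    refine ⟨x, hx, ?_⟩
    simp only [Finset.mem_union, Finset.mem_filter, Finset.mem_univ, true_and]
    tauto
  calc Fintype.card G = (Finset.univ : Finset G).card := Finset.card_univ.symm
    _ ≤ _ := Finset.card_le_card hcov
    _ ≤ ∑ x ∈ X, 36 := by
      refine Finset.card_biUnion_le.trans (Finset.sum_le_sum fun x _ => ?_)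
      refine (Finset.card_union_le _ _).trans ?_
      have h1 := (Finset.card_union_le (Finset.univ.filter (fun y => tri a b y = tri a b x))
        (Finset.univ.filter (fun y => tri a b y = tri c d x)))
      have h2 := (Finset.card_union_le (Finset.univ.filter (fun y => tri c d y = tri a b x))
        (Finset.univ.filter (fun y => tri c d y = tri c d x)))
      have e1 := fib_le a b (tri a b x) Finset.univ
      have e2 := fib_le a b (tri c d x) Finset.univ
      have e3 := fib_le c d (tri a b x) Finset.univ
      have e4 := fib_le c d (tri c d x) Finset.univ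
      omega
    _ = 36 * X.card := by rw [Finset.sum_const, smul_eq_mul, mul_comm]

/-- A set of classes is good if any two sums `a + b` and `c + d` meet. -/
def Good (T : Finset (Om G)) : Prop := ∀ a b c d : G, ∃ x : G, tri a b x ∈ T ∧ tri c d x ∈ T

theorem card_bad_one (a b c d : G) :
    ((Finset.univ : Finset (Finset (Om G))).filter
      (fun T => ∀ x : G, ¬ (tri a b x ∈ T ∧ tri c d x ∈ T))).card * 4 ^ (Fintype.card G / 36) ≤
      3 ^ (Fintype.card G / 36) * 2 ^ Fintype.card (Om G) := by
  obtain ⟨X, hX1, hX2⟩ := exists_indep a b c d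
  obtain ⟨Y, hYX, hY⟩ := Finset.exists_subset_card_eq (n := Fintype.card G / 36) (s := X) (by omega)
  have h1 := card_avoid (fun x => tri a b x) (fun x => tri c d x) Y
    (fun x hx y hy hxy => hX2 x (hYX hx) y (hYX hy) hxy)
  rw [hY] at h1
  refine le_trans (Nat.mul_le_mul_right _ (Finset.card_le_card ?_)) h1
  intro T hT
  rw [Finset.mem_filter] at hT ⊢
  exact ⟨Finset.mem_univ _, fun x _ => hT.2 x⟩

open Classical in
theorem card_bad :
    ((Finset.univ : Finset (Finset (Om G))).filter (fun T => ¬ Good T)).card *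
      4 ^ (Fintype.card G / 36) ≤
      (Fintype.card G) ^ 4 * (3 ^ (Fintype.card G / 36) * 2 ^ Fintype.card (Om G)) := by
  have h1 : (Finset.univ : Finset (Finset (Om G))).filter (fun T => ¬ Good T) ⊆
      (Finset.univ : Finset (G × G × G × G)).biUnion (fun t =>
        (Finset.univ : Finset (Finset (Om G))).filter
          (fun T => ∀ x : G, ¬ (tri t.1 t.2.1 x ∈ T ∧ tri t.2.2.1 t.2.2.2 x ∈ T))) := by
    intro T hT
    have hT2 := (Finset.mem_filter.1 hT).2
    unfold Good at hT2
    push Not at hT2
    obtain ⟨a, b, c, d, h⟩ := hT2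
    rw [Finset.mem_biUnion]
    exact ⟨(a, b, c, d), Finset.mem_univ _, Finset.mem_filter.2
      ⟨Finset.mem_univ _, fun x hx => h x hx.1 hx.2⟩⟩
  calc _ ≤ ((Finset.univ : Finset (G × G × G × G)).biUnion (fun t =>
        (Finset.univ : Finset (Finset (Om G))).filter
          (fun T => ∀ x : G, ¬ (tri t.1 t.2.1 x ∈ T ∧ tri t.2.2.1 t.2.2.2 x ∈ T)))).card *
            4 ^ (Fintype.card G / 36) := Nat.mul_le_mul_right _ (Finset.card_le_card h1)
    _ ≤ (∑ t : G × G × G × G, ((Finset.univ : Finset (Finset (Om G))).filter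
          (fun T => ∀ x : G, ¬ (tri t.1 t.2.1 x ∈ T ∧ tri t.2.2.1 t.2.2.2 x ∈ T))).card) *
            4 ^ (Fintype.card G / 36) := Nat.mul_le_mul_right _ Finset.card_biUnion_le
    _ = ∑ t : G × G × G × G, ((Finset.univ : Finset (Finset (Om G))).filter
          (fun T => ∀ x : G, ¬ (tri t.1 t.2.1 x ∈ T ∧ tri t.2.2.1 t.2.2.2 x ∈ T))).card *
            4 ^ (Fintype.card G / 36) := Finset.sum_mul _ _ _
    _ ≤ ∑ _t : G × G × G × G, 3 ^ (Fintype.card G / 36) * 2 ^ Fintype.card (Om G) :=
        Finset.sum_le_sum fun t _ => card_bad_one _ _ _ _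
    _ = _ := by
      rw [Finset.sum_const, smul_eq_mul, Finset.card_univ, Fintype.card_prod, Fintype.card_prod,
        Fintype.card_prod]
      ring

end count

end Orb

end Pool.Agent.Y85.Hyp
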