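import Mathlib
import Pool.Agent.Y85.HypA
import Pool.Agent.Y85.HypB

/-!
# Hyperfield structures on `Fin (r + 1)`
-/

set_option autoImplicit false

namespace Pool.Agent.Y85.Hyp

open Finset

/-- multiplication tables -/
abbrev Tb (r : ℕ) : Type := Fin (r + 1) → Fin (r + 1) → Fin (r + 1)

/-- hyperaddition tables -/
abbrev Ad (r : ℕ) : Type := Fin (r + 1) → Fin (r + 1) → Set (Fin (r + 1))

/-- The nonzero elements form an abelian group. -/
structure IsTab {r : ℕ} (m : Tb r) : Prop where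
  unit : ∃ u : Fin (r + 1), u ≠ 0 ∧ ∀ a, m u a = a
  comm : ∀ a b, m a b = m b a
  assoc : ∀ a b c, m (m a b) c = m a (m b c)
  zero : ∀ a, m 0 a = 0
  nz : ∀ a b, a ≠ 0 → b ≠ 0 → m a b ≠ 0
  inv : ∀ a, a ≠ 0 → ∃ b, ∀ c, m (m a b) c = c

/-- The hyperfield axioms without associativity and nonemptiness. -/
structure Weak {r : ℕ} (m : Tb r) (h : Ad r) : Prop where
  comm : ∀ a b, h a b = h b a
  zero : ∀ a, h 0 a = {a}
  neg : ∀ a, ∃! b, (0 : Fin (r + 1)) ∈ h a b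
  rev : ∀ a b c d, a ∈ h b c → (0 : Fin (r + 1)) ∈ h b d → c ∈ h a d
  distr : ∀ a b c, (fun x => m a x) '' h b c = h (m a b) (m a c)

/-- nonzero elements -/
abbrev Nz (r : ℕ) : Type := {a : Fin (r + 1) // a ≠ 0}

theorem card_Nz (r : ℕ) : Fintype.card (Nz r) = r := by
  simp [Fintype.card_subtype_compl]

section Tab

variable {r : ℕ} {m : Tb r}

theorem IsTab.mul_zero (hm : IsTab m) (a : Fin (r + 1)) : m a 0 = 0 := by
  rw [hm.comm, hm.zero]

/-- The group of nonzero elements. -/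
@[instance_reducible] noncomputable def IsTab.group (hm : IsTab m) : CommGroup (Nz r) where
  mul a b := ⟨m a.1 b.1, hm.nz _ _ a.2 b.2⟩
  mul_assoc a b c := Subtype.ext (hm.assoc _ _ _)
  one := ⟨hm.unit.choose, hm.unit.choose_spec.1⟩
  one_mul a := Subtype.ext (hm.unit.choose_spec.2 _)
  mul_one a := Subtype.ext ((hm.comm _ _).trans (hm.unit.choose_spec.2 _))
  inv a := ⟨(hm.inv a.1 a.2).choose, by
    intro h0
    have h1 := (hm.inv a.1 a.2).choose_spec a.1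
    rw [h0, hm.mul_zero, hm.zero] at h1
    exact a.2 h1.symm⟩
  inv_mul_cancel a := by
    apply Subtype.ext
    show m _ a.1 = _
    have h1 := (hm.inv a.1 a.2).choose_spec
    have h2 := h1 hm.unit.choose
    rw [hm.comm _ a.1]
    have h3 : m (m a.1 (hm.inv a.1 a.2).choose) hm.unit.choose =
        m a.1 (hm.inv a.1 a.2).choose := by
      rw [hm.comm]
      exact hm.unit.choose_spec.2 _
    exact h3.symm.trans h2
  mul_comm a b := Subtype.ext (hm.comm _ _)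

theorem IsTab.group_mul (hm : IsTab m) (a b : Nz r) :
    (@HMul.hMul _ _ _ (@instHMul _ hm.group.toMul) a b).1 = m a.1 b.1 := rfl

theorem IsTab.unit_unique (hm : IsTab m) {u v : Fin (r + 1)} (hu : ∀ a, m u a = a)
    (hv : ∀ a, m v a = a) : u = v := by
  rw [← hv u, hm.comm, hu]

end Tab

section Quot

variable {r : ℕ}

/-- `p` is a quotient hyperfield. -/
def IsQuot (p : Tb r × Ad r) : Prop :=
  ∃ (K : Type) (_ : Field K), ∃ G : Subgroup Kˣ, ∃ f : K → Fin (r+1),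
    Function.Surjective f ∧ f 0 = 0 ∧
    (∀ x y : K, f x = f y ↔ ∃ g ∈ G, y = x * (g : K)) ∧
    (∀ x y : K, f (x * y) = p.1 (f x) (f y)) ∧
    (∀ x y : K, p.2 (f x) (f y) = {z | ∃ g ∈ G, ∃ h ∈ G, z = f (x * (g : K) + y * (h : K))})

/-- `p` is a hyperfield. -/
def IsHyp (p : Tb r × Ad r) : Prop :=
  (∃ u : Fin (r+1), u ≠ 0 ∧ ∀ a, p.1 u a = a) ∧
    (∀ a b, p.1 a b = p.1 b a) ∧
    (∀ a b c, p.1 (p.1 a b) c = p.1 a (p.1 b c)) ∧
    (∀ a, p.1 0 a = 0) ∧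
    (∀ a b, a ≠ 0 → b ≠ 0 → p.1 a b ≠ 0) ∧
    (∀ a, a ≠ 0 → ∃ b, ∀ c, p.1 (p.1 a b) c = c) ∧
    (∀ a b, (p.2 a b).Nonempty) ∧
    (∀ a b, p.2 a b = p.2 b a) ∧
    (∀ a b c, (⋃ x ∈ p.2 a b, p.2 x c) = ⋃ x ∈ p.2 b c, p.2 a x) ∧
    (∀ a, p.2 0 a = {a}) ∧
    (∀ a, ∃! b, (0 : Fin (r+1)) ∈ p.2 a b) ∧
    (∀ a b c d, a ∈ p.2 b c → (0 : Fin (r+1)) ∈ p.2 b d → c ∈ p.2 a d) ∧
    (∀ a b c, (fun x => p.1 a x) '' p.2 b c = p.2 (p.1 a b) (p.1 a c))

/-- isomorphism -/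
def Iso (p q : Tb r × Ad r) : Prop :=
  ∃ e : Fin (r+1) ≃ Fin (r+1), ∀ a b, e (p.1 a b) = q.1 (e a) (e b) ∧ e '' p.2 a b = q.2 (e a) (e b)

/-- `1 - 1` is everything -/
def Full (m : Tb r) (h : Ad r) : Prop :=
  ∀ u ε : Fin (r + 1), (∀ a, m u a = a) → (0 : Fin (r + 1)) ∈ h u ε → h u ε = Set.univ

variable {K : Type} [Field K] {G : Subgroup Kˣ} {f : K → Fin (r + 1)} {m : Tb r} {h : Ad r}

theorem isTab_of_quot (hf : QuotMap G f) (hmul : ∀ x y : K, f (x * y) = m (f x) (f y)) :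
    IsTab m where
  unit := by
    refine ⟨f 1, ?_, fun a => ?_⟩
    · intro h0
      exact one_ne_zero (hf.eq_zero h0)
    · obtain ⟨x, rfl⟩ := hf.surj a
      rw [← hmul, one_mul]
  comm a b := by
    obtain ⟨x, rfl⟩ := hf.surj a
    obtain ⟨y, rfl⟩ := hf.surj b
    rw [← hmul, ← hmul, mul_comm]
  assoc a b c := by
    obtain ⟨x, rfl⟩ := hf.surj a
    obtain ⟨y, rfl⟩ := hf.surj b
    obtain ⟨z, rfl⟩ := hf.surj c
    rw [← hmul, ← hmul, ← hmul, ← hmul, mul_assoc]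
  zero a := by
    obtain ⟨x, rfl⟩ := hf.surj a
    rw [← hf.zero, ← hmul, zero_mul]
  nz a b := by
    obtain ⟨x, rfl⟩ := hf.surj a
    obtain ⟨y, rfl⟩ := hf.surj b
    intro hx hy hxy
    rw [← hmul] at hxy
    rcases mul_eq_zero.1 (hf.eq_zero hxy) with h1 | h1
    · exact hx (by rw [h1, hf.zero])
    · exact hy (by rw [h1, hf.zero])
  inv a := by
    obtain ⟨x, rfl⟩ := hf.surj a
    intro hx
    refine ⟨f x⁻¹, fun c => ?_⟩
    obtain ⟨z, rfl⟩ := hf.surj c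
    have hx0 : x ≠ 0 := by
      rintro rfl
      exact hx hf.zero
    rw [← hmul, ← hmul, mul_inv_cancel₀ hx0, one_mul]

theorem zero_mem_quot (hf : QuotMap G f)
    (hadd : ∀ x y : K, h (f x) (f y) = {z | ∃ g ∈ G, ∃ g' ∈ G, z = f (x * (g : K) + y * (g' : K))})
    (x y : K) : (0 : Fin (r + 1)) ∈ h (f x) (f y) ↔ f y = f (-x) := by
  rw [hadd]
  constructor
  · rintro ⟨g, hg, g', hg', h0⟩
    have h1 := hf.eq_zero h0.symm
    rw [eq_comm]
    refine (hf.fib _ _).2 ⟨g * g'⁻¹, G.mul_mem hg (G.inv_mem hg'), ?_⟩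
    have h2 : (g' : K) ≠ 0 := g'.ne_zero
    push_cast
    field_simp
    linear_combination h1
  · intro h1
    rw [eq_comm] at h1
    obtain ⟨g, hg, hy⟩ := (hf.fib _ _).1 h1
    refine ⟨g, hg, 1, G.one_mem, ?_⟩
    rw [hy]
    push_cast
    rw [mul_one, neg_mul, add_neg_cancel, hf.zero]

theorem weak_of_quot (hf : QuotMap G f) (hmul : ∀ x y : K, f (x * y) = m (f x) (f y))
    (hadd : ∀ x y : K, h (f x) (f y) = {z | ∃ g ∈ G, ∃ g' ∈ G, z = f (x * (g : K) + y * (g' : K))}) :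
    Weak m h where
  comm a b := by
    obtain ⟨x, rfl⟩ := hf.surj a
    obtain ⟨y, rfl⟩ := hf.surj b
    rw [hadd, hadd]
    ext z
    constructor
    · rintro ⟨g, hg, g', hg', rfl⟩
      exact ⟨g', hg', g, hg, congrArg f (add_comm _ _)⟩
    · rintro ⟨g, hg, g', hg', rfl⟩
      exact ⟨g', hg', g, hg, congrArg f (add_comm _ _)⟩
  zero a := by
    obtain ⟨x, rfl⟩ := hf.surj a
    rw [← hf.zero, hadd]
    ext z
    simp only [zero_mul, zero_add, Set.mem_ofPred_eq, Set.mem_singleton_iff]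
    constructor
    · rintro ⟨_, _, g', hg', rfl⟩
      exact ((hf.fib _ _).2 ⟨g', hg', rfl⟩).symm
    · rintro rfl
      exact ⟨1, G.one_mem, 1, G.one_mem, by simp⟩
  neg a := by
    obtain ⟨x, rfl⟩ := hf.surj a
    refine ⟨f (-x), (zero_mem_quot hf hadd _ _).2 rfl, fun b hb => ?_⟩
    obtain ⟨y, rfl⟩ := hf.surj b
    exact (zero_mem_quot hf hadd _ _).1 hb
  rev a b c d := by
    obtain ⟨x, rfl⟩ := hf.surj a
    obtain ⟨y, rfl⟩ := hf.surj b
    obtain ⟨z, rfl⟩ := hf.surj c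
    obtain ⟨w, rfl⟩ := hf.surj d
    intro h1 h2
    rw [(zero_mem_quot hf hadd _ _).1 h2]
    rw [hadd] at h1 ⊢
    obtain ⟨g, hg, g', hg', he⟩ := h1
    obtain ⟨k, hk, hke⟩ := (hf.fib _ _).1 he
    refine ⟨k * g'⁻¹, G.mul_mem hk (G.inv_mem hg'), g * g'⁻¹,
      G.mul_mem hg (G.inv_mem hg'), congrArg f ?_⟩
    have h2 : (g' : K) ≠ 0 := g'.ne_zero
    push_cast
    field_simp
    linear_combination hke
  distr a b c := by
    obtain ⟨x, rfl⟩ := hf.surj a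
    obtain ⟨y, rfl⟩ := hf.surj b
    obtain ⟨z, rfl⟩ := hf.surj c
    rw [← hmul, ← hmul, hadd, hadd]
    ext w
    constructor
    · rintro ⟨_, ⟨g, hg, g', hg', rfl⟩, rfl⟩
      exact ⟨g, hg, g', hg', (hmul _ _).symm.trans (congrArg f (by ring))⟩
    · rintro ⟨g, hg, g', hg', rfl⟩
      exact ⟨_, ⟨g, hg, g', hg', rfl⟩, (hmul _ _).symm.trans (congrArg f (by ring))⟩

theorem full_of_quot (hf : QuotMap G f) (hmul : ∀ x y : K, f (x * y) = m (f x) (f y))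
    (hadd : ∀ x y : K, h (f x) (f y) = {z | ∃ g ∈ G, ∃ g' ∈ G, z = f (x * (g : K) + y * (g' : K))})
    (hd : ∀ z, ∃ g ∈ G, ∃ g' ∈ G, z = f (1 * ((g : Kˣ) : K) + (-1) * ((g' : Kˣ) : K))) :
    Full m h := by
  intro u ε hu hε
  have h1 : u = f 1 := (isTab_of_quot hf hmul).unit_unique hu (fun a => by
    obtain ⟨x, rfl⟩ := hf.surj a
    rw [← hmul, one_mul])
  subst h1
  obtain ⟨y, rfl⟩ := hf.surj ε
  rw [(zero_mem_quot hf hadd _ _).1 hε, hadd]
  ext z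
  simp only [Set.mem_ofPred_eq, Set.mem_univ, iff_true]
  exact hd z

/-- A quotient hyperfield either comes from a field with at most `16 r ^ 4` elements or has
`1 - 1` equal to everything. -/
theorem quot_cases (hr : 0 < r) {p : Tb r × Ad r} (hp : IsQuot p) :
    (IsTab p.1 ∧ Weak p.1 p.2) ∧ (Full p.1 p.2 ∨
      ∃ (K : Type) (_ : Field K) (_ : Finite K), ∃ G : Subgroup Kˣ, ∃ f : K → Fin (r+1),
        Nat.card K ≤ 16 * r ^ 4 ∧ QuotMap G f ∧
        (∀ x y : K, f (x * y) = p.1 (f x) (f y)) ∧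
        (∀ x y : K, p.2 (f x) (f y) =
          {z | ∃ g ∈ G, ∃ h ∈ G, z = f (x * (g : K) + y * (h : K))})) := by
  obtain ⟨K, _, G, f, h1, h2, h3, h4, h5⟩ := hp
  have hf : QuotMap G f := ⟨h1, h2, h3⟩
  refine ⟨⟨isTab_of_quot hf h4, weak_of_quot hf h4 h5⟩, ?_⟩
  rcases finite_or_infinite K with hK | hK
  · have : Fintype K := Fintype.ofFinite K
    by_cases hc : 16 * r ^ 4 < Fintype.card K
    · exact Or.inl (full_of_quot hf h4 h5 (hf.diff_of_large hr hc))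
    · exact Or.inr ⟨K, inferInstance, hK, G, f, by
        rw [Nat.card_eq_fintype_card]; omega, hf, h4, h5⟩
  · exact Or.inl (full_of_quot hf h4 h5 hf.diff_of_infinite)

end Quot

end Pool.Agent.Y85.Hyp
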