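import Mathlib
import Pool.Agent.Y85.HypC

/-!
# Hyperfields from symmetric sets of triples, and the converse
-/

set_option autoImplicit false

namespace Pool.Agent.Y85.Hyp

open Finset

section TT

variable {r : ℕ} {m : Tb r} (hm : IsTab m)

/-- The relation on nonzero elements defined by a set of classes of triples. -/
def TT (T : @Finset (@Om (Nz r) hm.group)) (a b c : Fin (r + 1)) : Prop :=
  ∃ (ha : a ≠ 0) (hb : b ≠ 0) (hc : c ≠ 0), @tri (Nz r) hm.group ⟨a, ha⟩ ⟨b, hb⟩ ⟨c, hc⟩ ∈ T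

theorem TT_swap1 {T : Finset (@Om (Nz r) hm.group)} {a b c : Fin (r + 1)} (h : TT hm T a b c) :
    TT hm T b a c := by
  obtain ⟨ha, hb, hc, h⟩ := h
  refine ⟨hb, ha, hc, ?_⟩
  rwa [@tri_swap1 _ hm.group]

theorem TT_swap2 {T : Finset (@Om (Nz r) hm.group)} {a b c : Fin (r + 1)} (h : TT hm T a b c) :
    TT hm T a c b := by
  obtain ⟨ha, hb, hc, h⟩ := h
  refine ⟨ha, hc, hb, ?_⟩
  rwa [@tri_swap2 _ hm.group]

theorem TT_scale {T : Finset (@Om (Nz r) hm.group)} {a b c g : Fin (r + 1)} (hg : g ≠ 0)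
    (h : TT hm T a b c) : TT hm T (m g a) (m g b) (m g c) := by
  obtain ⟨ha, hb, hc, h⟩ := h
  refine ⟨hm.nz _ _ hg ha, hm.nz _ _ hg hb, hm.nz _ _ hg hc, ?_⟩
  have := @tri_scale _ hm.group ⟨g, hg⟩ ⟨a, ha⟩ ⟨b, hb⟩ ⟨c, hc⟩
  rw [← this] at h
  exact h

/-- The hyperaddition defined by a set of classes of triples. -/
def hyp (T : Finset (@Om (Nz r) hm.group)) : Ad r := fun a b =>
  {c | (a = 0 ∧ c = b) ∨ (b = 0 ∧ c = a) ∨ (a ≠ 0 ∧ b ≠ 0 ∧ c = 0 ∧ a = b) ∨ TT hm T a b c}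

theorem mem_hyp {T : Finset (@Om (Nz r) hm.group)} {a b c : Fin (r + 1)} : c ∈ hyp hm T a b ↔
    (a = 0 ∧ c = b) ∨ (b = 0 ∧ c = a) ∨ (a ≠ 0 ∧ b ≠ 0 ∧ c = 0 ∧ a = b) ∨ TT hm T a b c := Iff.rfl

theorem TT_ne {T : Finset (@Om (Nz r) hm.group)} {a b c : Fin (r + 1)} (h : TT hm T a b c) :
    a ≠ 0 ∧ b ≠ 0 ∧ c ≠ 0 := ⟨h.1, h.2.1, h.2.2.1⟩

theorem hyp_zero (T : Finset (@Om (Nz r) hm.group)) (a : Fin (r + 1)) : hyp hm T 0 a = {a} := by
  ext c
  rw [mem_hyp, Set.mem_singleton_iff]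
  constructor
  · rintro (h | h | h | h)
    · exact h.2
    · rw [h.2, h.1]
    · exact absurd rfl h.1
    · exact absurd rfl (TT_ne hm h).1
  · intro h
    exact Or.inl ⟨rfl, h⟩

theorem hyp_comm (T : Finset (@Om (Nz r) hm.group)) (a b : Fin (r + 1)) :
    hyp hm T a b = hyp hm T b a := by
  have key : ∀ a b c, c ∈ hyp hm T a b → c ∈ hyp hm T b a := by
    intro a b c h
    rw [mem_hyp] at h ⊢
    rcases h with h | h | h | h
    · exact Or.inr (Or.inl h)
    · exact Or.inl h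
    · exact Or.inr (Or.inr (Or.inl ⟨h.2.1, h.1, h.2.2.1, h.2.2.2.symm⟩))
    · exact Or.inr (Or.inr (Or.inr (TT_swap1 hm h)))
  ext c
  exact ⟨key a b c, key b a c⟩

theorem hyp_mem_of_ne {T : Finset (@Om (Nz r) hm.group)} {a b c : Fin (r + 1)} (ha : a ≠ 0)
    (hb : b ≠ 0) (hc : c ≠ 0) : c ∈ hyp hm T a b ↔ TT hm T a b c := by
  rw [mem_hyp]
  constructor
  · rintro (h | h | h | h)
    · exact absurd h.1 ha
    · exact absurd h.1 hb
    · exact absurd h.2.2.1 hc
    · exact h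
  · exact fun h => Or.inr (Or.inr (Or.inr h))

theorem hyp_zero_mem {T : Finset (@Om (Nz r) hm.group)} {a b : Fin (r + 1)} :
    (0 : Fin (r + 1)) ∈ hyp hm T a b ↔ a = b := by
  rw [mem_hyp]
  constructor
  · rintro (h | h | h | h)
    · rw [h.1, h.2]
    · rw [h.1, h.2]
    · exact h.2.2.2
    · exact absurd rfl (TT_ne hm h).2.2
  · rintro rfl
    by_cases ha : a = 0
    · exact Or.inl ⟨ha, ha.symm⟩
    · exact Or.inr (Or.inr (Or.inl ⟨ha, ha, rfl, rfl⟩))

theorem hyp_isHyp {T : Finset (@Om (Nz r) hm.group)} (hT : @Good (Nz r) hm.group T) :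
    IsHyp (m, hyp hm T) := by
  have good : ∀ a b c d : Fin (r + 1), a ≠ 0 → b ≠ 0 → c ≠ 0 → d ≠ 0 →
      ∃ x, TT hm T a b x ∧ TT hm T c d x := by
    intro a b c d ha hb hc hd
    obtain ⟨x, h1, h2⟩ := hT ⟨a, ha⟩ ⟨b, hb⟩ ⟨c, hc⟩ ⟨d, hd⟩
    exact ⟨x.1, ⟨ha, hb, x.2, h1⟩, ⟨hc, hd, x.2, h2⟩⟩
  refine ⟨hm.unit, hm.comm, hm.assoc, hm.zero, hm.nz, hm.inv, ?_, hyp_comm hm T, ?_,
    hyp_zero hm T, ?_, ?_, ?_⟩
  · intro a b
    show (hyp hm T a b).Nonempty
    by_cases ha : a = 0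
    · exact ⟨b, Or.inl ⟨ha, rfl⟩⟩
    by_cases hb : b = 0
    · exact ⟨a, Or.inr (Or.inl ⟨hb, rfl⟩)⟩
    obtain ⟨x, hx, _⟩ := good a b a b ha hb ha hb
    exact ⟨x, Or.inr (Or.inr (Or.inr hx))⟩
  · -- associativity
    intro a b c
    show (⋃ x ∈ hyp hm T a b, hyp hm T x c) = ⋃ x ∈ hyp hm T b c, hyp hm T a x
    by_cases ha : a = 0
    · subst ha
      rw [hyp_zero]
      simp only [Set.mem_singleton_iff, Set.iUnion_iUnion_eq_left, hyp_zero]
      ext x
      simp
    by_cases hb : b = 0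
    · subst hb
      rw [hyp_comm hm T a 0, hyp_zero, hyp_zero]
      simp only [Set.mem_singleton_iff, Set.iUnion_iUnion_eq_left]
    by_cases hc : c = 0
    · subst hc
      rw [hyp_comm hm T b 0, hyp_zero]
      simp only [Set.mem_singleton_iff, Set.iUnion_iUnion_eq_left]
      ext x
      simp only [Set.mem_iUnion]
      constructor
      · rintro ⟨y, hy, hx⟩
        rw [hyp_comm, hyp_zero, Set.mem_singleton_iff] at hx
        rw [hx]
        exact hy
      · intro hx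
        refine ⟨x, hx, ?_⟩
        rw [hyp_comm, hyp_zero]
        rfl
    have key : ∀ a b c d : Fin (r + 1), a ≠ 0 → b ≠ 0 → c ≠ 0 → d ≠ 0 →
        d ∈ ⋃ x ∈ hyp hm T a b, hyp hm T x c := by
      intro a b c d ha hb hc hd
      obtain ⟨x, h1, h2⟩ := good a b d c ha hb hd hc
      rw [Set.mem_iUnion₂]
      refine ⟨x, Or.inr (Or.inr (Or.inr h1)), Or.inr (Or.inr (Or.inr ?_))⟩
      exact TT_swap1 hm (TT_swap2 hm (TT_swap1 hm h2))
    ext d
    by_cases hd : d = 0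
    · subst hd
      simp only [Set.mem_iUnion, hyp_zero_mem, exists_prop, exists_eq_right, exists_eq_right']
      rw [hyp_mem_of_ne hm ha hb hc, hyp_mem_of_ne hm hb hc ha]
      exact ⟨fun h => TT_swap2 hm (TT_swap1 hm h), fun h => TT_swap1 hm (TT_swap2 hm h)⟩
    · refine iff_of_true (key a b c d ha hb hc hd) ?_
      have h1 := key c b a d hc hb ha hd
      rw [hyp_comm hm T b c]
      simp only [hyp_comm hm T a]
      exact h1
  · intro a
    exact ⟨a, (hyp_zero_mem hm).2 rfl, fun b hb => ((hyp_zero_mem hm).1 hb).symm⟩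
  · intro a b c d h1 h2
    rw [hyp_zero_mem] at h2
    subst h2
    show c ∈ hyp hm T a b
    rcases (mem_hyp hm).1 h1 with h | h | h | h
    · rw [h.1, h.2, hyp_comm, hyp_zero]; rfl
    · rw [h.1, h.2]; exact (hyp_zero_mem hm).2 rfl
    · rw [h.2.2.1, hyp_zero, h.2.2.2]; rfl
    · exact Or.inr (Or.inr (Or.inr (TT_swap1 hm (TT_swap2 hm h))))
  · intro a b c
    show (fun x => m a x) '' hyp hm T b c = hyp hm T (m a b) (m a c)
    by_cases ha : a = 0
    · subst ha
      simp only [hm.zero, hyp_zero]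
      ext x
      simp only [Set.mem_image, Set.mem_singleton_iff]
      constructor
      · rintro ⟨_, _, rfl⟩
        rfl
      · rintro rfl
        by_cases hb : b = 0
        · exact ⟨c, Or.inl ⟨hb, rfl⟩, rfl⟩
        by_cases hc : c = 0
        · exact ⟨b, Or.inr (Or.inl ⟨hc, rfl⟩), rfl⟩
        obtain ⟨y, hy, _⟩ := good b c b c hb hc hb hc
        exact ⟨y, Or.inr (Or.inr (Or.inr hy)), rfl⟩
    · obtain ⟨a', ha'⟩ := hm.inv a ha
      have hcancel : ∀ x, m a' (m a x) = x := by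
        intro x
        rw [← hm.assoc, hm.comm a' a]
        exact ha' x
      have ha'0 : a' ≠ 0 := by
        rintro rfl
        have h1 := ha' a
        rw [hm.mul_zero, hm.zero] at h1
        exact ha h1.symm
      have step : ∀ g b c x : Fin (r + 1), g ≠ 0 → x ∈ hyp hm T b c →
          m g x ∈ hyp hm T (m g b) (m g c) := by
        intro g b c x hg hx
        rcases (mem_hyp hm).1 hx with h | h | h | h
        · rw [h.1, h.2, hm.mul_zero, hyp_zero]; rfl
        · rw [h.1, h.2, hm.mul_zero, hyp_comm, hyp_zero]; rfl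
        · rw [h.2.2.1, h.2.2.2, hm.mul_zero]; exact (hyp_zero_mem hm).2 rfl
        · exact Or.inr (Or.inr (Or.inr (TT_scale hm hg h)))
      ext x
      constructor
      · rintro ⟨y, hy, rfl⟩
        exact step a b c y ha hy
      · intro hx
        refine ⟨m a' x, ?_, ?_⟩
        · have h1 := step a' _ _ x ha'0 hx
          rwa [hcancel, hcancel] at h1
        · show m a (m a' x) = x
          rw [← hm.assoc]
          exact ha' x

theorem hyp_injective : Function.Injective (hyp hm) := by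
  intro T T' h
  ext ω
  obtain ⟨a, b, c, rfl⟩ := @tri_surj _ hm.group ω
  have h1 : ∀ S : Finset (@Om (Nz r) hm.group),
      @tri _ hm.group a b c ∈ S ↔ c.1 ∈ hyp hm S a.1 b.1 := by
    intro S
    rw [hyp_mem_of_ne hm a.2 b.2 c.2]
    constructor
    · intro h2
      exact ⟨a.2, b.2, c.2, h2⟩
    · rintro ⟨_, _, _, h2⟩
      exact h2
  rw [h1, h1, h]

/-- There are at least as many hyperfields with multiplication `m` as good sets. -/
theorem card_good_le [Fintype (@Om (Nz r) hm.group)] [DecidableEq (@Om (Nz r) hm.group)]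
    [DecidablePred (@Good (Nz r) hm.group)] :
    ((Finset.univ : Finset (Finset (@Om (Nz r) hm.group))).filter (@Good (Nz r) hm.group)).card ≤
      Set.ncard {h : Ad r | IsHyp (m, h)} := by
  rw [← Set.ncard_coe_finset]
  refine Set.ncard_le_ncard_of_injOn (hyp hm) ?_ (hyp_injective hm).injOn (Set.toFinite _)
  intro T hT
  exact hyp_isHyp hm (Finset.mem_filter.1 (Finset.mem_coe.1 hT)).2

end TT

section Upper

variable {r : ℕ} {m : Tb r} (hm : IsTab m)

theorem Weak.exists_eps {h : Ad r} (hw : Weak m h) : ∃ ε : Nz r,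
    (0 : Fin (r + 1)) ∈ h (@One.one _ hm.group.toOne : Nz r).1 ε.1 := by
  obtain ⟨b, hb, _⟩ := hw.neg (@One.one _ hm.group.toOne : Nz r).1
  refine ⟨⟨b, ?_⟩, hb⟩
  rintro rfl
  have hb' : (0 : Fin (r + 1)) ∈ h (@One.one _ hm.group.toOne : Nz r).1 0 := hb
  rw [hw.comm, hw.zero, Set.mem_singleton_iff] at hb'
  exact (@One.one _ hm.group.toOne : Nz r).2 hb'.symm

end Upper

end Pool.Agent.Y85.Hyp
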