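import Mathlib
import Pool.Agent.Y85.HypD

/-!
# Upper bound for the number of hyperfields in which `1 - 1` is everything
-/

set_option autoImplicit false

namespace Pool.Agent.Y85.Hyp

open Finset

section Upper

variable {r : ℕ} {m : Tb r} (hm : IsTab m) {h : Ad r}

/-- the unit -/
noncomputable def uu : Fin (r + 1) := (@One.one _ hm.group.toOne : Nz r).1

theorem uu_ne : uu hm ≠ 0 := (@One.one _ hm.group.toOne : Nz r).2

theorem uu_mul (a : Fin (r + 1)) : m (uu hm) a = a := hm.unit.choose_spec.2 a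

theorem mul_uu (a : Fin (r + 1)) : m a (uu hm) = a := by
  rw [hm.comm, uu_mul hm]

theorem Weak.neg_mem (hw : Weak m h) {ε : Fin (r + 1)} (hε : (0 : Fin (r + 1)) ∈ h (uu hm) ε)
    (a : Fin (r + 1)) : (0 : Fin (r + 1)) ∈ h a (m a ε) := by
  have h1 := hw.distr a (uu hm) ε
  rw [mul_uu hm] at h1
  rw [← h1]
  exact ⟨0, hε, hm.mul_zero a⟩

theorem Weak.zero_mem_iff (hw : Weak m h) {ε : Fin (r + 1)} (hε : (0 : Fin (r + 1)) ∈ h (uu hm) ε)
    {a b : Fin (r + 1)} : (0 : Fin (r + 1)) ∈ h a b ↔ b = m a ε := by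
  constructor
  · intro h1
    exact (hw.neg a).unique h1 (hw.neg_mem hm hε a)
  · rintro rfl
    exact hw.neg_mem hm hε a

theorem Weak.eps_ne (hw : Weak m h) {ε : Fin (r + 1)} (hε : (0 : Fin (r + 1)) ∈ h (uu hm) ε) :
    ε ≠ 0 := by
  rintro rfl
  rw [hw.comm, hw.zero, Set.mem_singleton_iff] at hε
  exact uu_ne hm hε.symm

theorem Weak.eps_sq (hw : Weak m h) {ε : Fin (r + 1)} (hε : (0 : Fin (r + 1)) ∈ h (uu hm) ε) :
    m ε ε = uu hm := by
  have h1 : (0 : Fin (r + 1)) ∈ h ε (uu hm) := by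
    rw [hw.comm]; exact hε
  exact ((hw.zero_mem_iff hm hε).1 h1).symm

/-- the symmetric relation defined by a hyperaddition -/
def RR (m : Tb r) (h : Ad r) (ε : Fin (r + 1)) (a b c : Nz r) : Prop := m ε c.1 ∈ h a.1 b.1

theorem RR_swap1 (hw : Weak m h) {ε : Fin (r + 1)} (a b c : Nz r) (hR : RR m h ε a b c) :
    RR m h ε b a c := by
  unfold RR at *
  rwa [hw.comm]

theorem scale_mem (hw : Weak m h) (g a b c : Fin (r + 1)) (hc : c ∈ h a b) :
    m g c ∈ h (m g a) (m g b) := by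
  rw [← hw.distr]
  exact ⟨c, hc, rfl⟩

include hm in
theorem RR_swap2 (hw : Weak m h) {ε : Fin (r + 1)} (hε : (0 : Fin (r + 1)) ∈ h (uu hm) ε)
    (a b c : Nz r) (hR : RR m h ε a b c) : RR m h ε a c b := by
  unfold RR at *
  have h1 := hw.rev _ _ _ _ hR (hw.neg_mem hm hε a.1)
  have h2 := scale_mem hw ε _ _ _ h1
  have h3 : m ε (m ε c.1) = c.1 := by
    rw [← hm.assoc, hw.eps_sq hm hε, uu_mul hm]
  have h4 : m ε (m a.1 ε) = a.1 := by
    rw [hm.comm a.1 ε, ← hm.assoc, hw.eps_sq hm hε, uu_mul hm]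
  rw [h3, h4, hw.comm] at h2
  exact h2

include hm in
theorem RR_scale (hw : Weak m h) {ε : Fin (r + 1)} (g a b c : Nz r) (hR : RR m h ε a b c) :
    RR m h ε (@HMul.hMul _ _ _ (@instHMul _ hm.group.toMul) g a)
      (@HMul.hMul _ _ _ (@instHMul _ hm.group.toMul) g b)
      (@HMul.hMul _ _ _ (@instHMul _ hm.group.toMul) g c) := by
  unfold RR at *
  rw [hm.group_mul, hm.group_mul, hm.group_mul]
  have h1 := scale_mem hw g.1 _ _ _ hR
  rw [← hm.assoc, hm.comm ε g.1, hm.assoc]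
  exact h1

theorem RR_of_tri (hw : Weak m h) {ε : Fin (r + 1)} (hε : (0 : Fin (r + 1)) ∈ h (uu hm) ε)
    {a b c a' b' c' : Nz r} (he : @tri _ hm.group a b c = @tri _ hm.group a' b' c')
    (hR : RR m h ε a' b' c') : RR m h ε a b c :=
  @rel_of_tri_eq _ hm.group (RR m h ε) (RR_swap1 hw) (RR_swap2 hm hw hε) (RR_scale hm hw)
    _ _ _ _ _ _ he hR

open Classical in
/-- the set of classes of triples of a hyperaddition -/
noncomputable def setOf' [Fintype (@Om (Nz r) hm.group)] (h : Ad r) (ε : Fin (r + 1)) :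
    Finset (@Om (Nz r) hm.group) :=
  Finset.univ.filter (fun ω => ∃ a b c : Nz r, @tri _ hm.group a b c = ω ∧ RR m h ε a b c)

theorem mem_setOf' [Fintype (@Om (Nz r) hm.group)] (hw : Weak m h) {ε : Fin (r + 1)}
    (hε : (0 : Fin (r + 1)) ∈ h (uu hm) ε) (a b c : Nz r) :
    @tri _ hm.group a b c ∈ setOf' hm h ε ↔ RR m h ε a b c := by
  classical
  unfold setOf'
  rw [Finset.mem_filter]
  constructor
  · rintro ⟨_, a', b', c', h1, h2⟩
    exact RR_of_tri hm hw hε h1.symm h2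
  · intro h1
    exact ⟨Finset.mem_univ _, a, b, c, rfl, h1⟩

theorem mem_iff [Fintype (@Om (Nz r) hm.group)] (hw : Weak m h) {ε : Fin (r + 1)}
    (hε : (0 : Fin (r + 1)) ∈ h (uu hm) ε) (a b c : Fin (r + 1)) :
    c ∈ h a b ↔ (a = 0 ∧ c = b) ∨ (b = 0 ∧ c = a) ∨ (a ≠ 0 ∧ b ≠ 0 ∧ c = 0 ∧ b = m a ε) ∨
      (∃ (ha : a ≠ 0) (hb : b ≠ 0) (hc : m ε c ≠ 0),
        @tri _ hm.group ⟨a, ha⟩ ⟨b, hb⟩ ⟨m ε c, hc⟩ ∈ setOf' hm h ε) := by
  have hεε : m ε (m ε c) = c := by
    rw [← hm.assoc, hw.eps_sq hm hε, uu_mul hm]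
  constructor
  · intro hc
    by_cases ha : a = 0
    · rw [ha, hw.zero] at hc
      exact Or.inl ⟨ha, hc⟩
    by_cases hb : b = 0
    · rw [hb, hw.comm, hw.zero] at hc
      exact Or.inr (Or.inl ⟨hb, hc⟩)
    by_cases hc0 : c = 0
    · rw [hc0] at hc
      exact Or.inr (Or.inr (Or.inl ⟨ha, hb, hc0, (hw.zero_mem_iff hm hε).1 hc⟩))
    · refine Or.inr (Or.inr (Or.inr ⟨ha, hb, hm.nz _ _ (hw.eps_ne hm hε) hc0, ?_⟩))
      rw [mem_setOf' hm hw hε]
      show m ε (m ε c) ∈ h a b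
      rw [hεε]
      exact hc
  · rintro (h1 | h1 | h1 | ⟨ha, hb, hc, h1⟩)
    · rw [h1.1, hw.zero]
      exact h1.2
    · rw [h1.1, hw.comm, hw.zero]
      exact h1.2
    · rw [h1.2.2.1]
      exact (hw.zero_mem_iff hm hε).2 h1.2.2.2
    · rw [mem_setOf' hm hw hε] at h1
      have h2 : m ε (m ε c) ∈ h a b := h1
      rwa [hεε] at h2

theorem weak_ext [Fintype (@Om (Nz r) hm.group)] {h' : Ad r} (hw : Weak m h) (hw' : Weak m h')
    {ε : Fin (r + 1)} (hε : (0 : Fin (r + 1)) ∈ h (uu hm) ε)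
    (hε' : (0 : Fin (r + 1)) ∈ h' (uu hm) ε) (he : setOf' hm h ε = setOf' hm h' ε) : h = h' := by
  funext a b
  ext c
  rw [mem_iff hm hw hε, mem_iff hm hw' hε', he]

/-- Upper bound for the number of weak hyperfield structures with `1 - 1` everything. -/
theorem card_full_le [Fintype (@Om (Nz r) hm.group)] [DecidableEq (@Om (Nz r) hm.group)] :
    Set.ncard {h : Ad r | Weak m h ∧ Full m h} * 2 ^ (r / 9) ≤
      r * 2 ^ Fintype.card (@Om (Nz r) hm.group) := by
  classical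
  let _ := hm.group
  -- the pairs
  set P : Finset (Nz r × Finset (Om (Nz r))) :=
    Finset.univ.filter (fun p => ∀ x : Nz r, tri 1 p.1 x ∈ p.2) with hP
  have h1 : Set.ncard {h : Ad r | Weak m h ∧ Full m h} ≤ P.card := by
    rw [← Set.ncard_coe_finset]
    have hex : ∀ h : Ad r, ∃ ε : Nz r, Weak m h → (0 : Fin (r + 1)) ∈ h (uu hm) ε.1 := by
      intro h
      by_cases hw : Weak m h
      · obtain ⟨ε, hε, _⟩ := hw.neg (uu hm)
        exact ⟨⟨ε, hw.eps_ne hm hε⟩, fun _ => hε⟩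
      · exact ⟨1, fun h' => absurd h' hw⟩
    choose eps heps using hex
    refine Set.ncard_le_ncard_of_injOn (fun h => (eps h, setOf' hm h (eps h).1)) ?_ ?_
      (Set.toFinite _)
    · rintro h ⟨hw, hf⟩
      rw [Finset.mem_coe, hP, Finset.mem_filter]
      refine ⟨Finset.mem_univ _, fun x => ?_⟩
      rw [mem_setOf' hm hw (heps h hw)]
      show m (eps h).1 x.1 ∈ h (uu hm) (eps h).1
      rw [hf (uu hm) (eps h).1 (uu_mul hm) (heps h hw)]
      exact Set.mem_univ _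
    · rintro h ⟨hw, _⟩ h' ⟨hw', _⟩ he
      simp only [Prod.mk.injEq] at he
      obtain ⟨he1, he2⟩ := he
      have e1 := heps h hw
      have e2 := heps h' hw'
      rw [he1] at e1 he2
      exact weak_ext hm hw hw' e1 e2 he2
  have h2 : P.card = ∑ ε : Nz r, ((Finset.univ : Finset (Finset (Om (Nz r)))).filter
      (fun T => ∀ x : Nz r, tri 1 ε x ∈ T)).card := by
    rw [hP, Finset.card_filter, Fintype.sum_prod_type]
    simp only [Finset.card_filter]
  calc _ ≤ P.card * 2 ^ (r / 9) := Nat.mul_le_mul_right _ h1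
    _ = ∑ ε : Nz r, ((Finset.univ : Finset (Finset (Om (Nz r)))).filter
      (fun T => ∀ x : Nz r, tri 1 ε x ∈ T)).card * 2 ^ (r / 9) := by rw [h2, Finset.sum_mul]
    _ ≤ ∑ _ε : Nz r, 2 ^ Fintype.card (Om (Nz r)) := by
        refine Finset.sum_le_sum fun ε _ => ?_
        have := card_super (G := Nz r) ε
        rwa [card_Nz] at this
    _ = _ := by
        rw [Finset.sum_const, Finset.card_univ, card_Nz, smul_eq_mul]

/-- Lower bound for the number of hyperfields with multiplication `m`. -/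
theorem card_hyp_ge [Fintype (@Om (Nz r) hm.group)] :
    2 ^ Fintype.card (@Om (Nz r) hm.group) * 4 ^ (r / 36) ≤
      Set.ncard {h : Ad r | IsHyp (m, h)} * 4 ^ (r / 36) +
        r ^ 4 * (3 ^ (r / 36) * 2 ^ Fintype.card (@Om (Nz r) hm.group)) := by
  classical
  have h1 := card_good_le hm
  have h2 := @card_bad (Nz r) hm.group _ _ _ _
  rw [card_Nz] at h2
  have h3 : ((Finset.univ : Finset (Finset (@Om (Nz r) hm.group))).filter
      (@Good (Nz r) hm.group)).card + ((Finset.univ : Finset (Finset (@Om (Nz r) hm.group))).filter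
      (fun T => ¬ @Good (Nz r) hm.group T)).card = 2 ^ Fintype.card (@Om (Nz r) hm.group) := by
    rw [Finset.card_filter_add_card_filter_not, Finset.card_univ, Fintype.card_finset]
  rw [← h3, add_mul]
  have h4 := Nat.mul_le_mul_right (4 ^ (r / 36)) h1
  rw [h3]
  exact add_le_add h4 h2

/-- The number of classes of triples is at least `r / 9`. -/
theorem card_Om_ge [Fintype (@Om (Nz r) hm.group)] :
    r ≤ 9 * Fintype.card (@Om (Nz r) hm.group) := by
  classical
  let _ := hm.group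
  have h1 := card_image_tri (G := Nz r) 1 1
  rw [card_Nz] at h1
  have h2 := Finset.card_le_univ ((Finset.univ : Finset (Nz r)).image
    (fun x => tri (1 : Nz r) 1 x))
  omega

end Upper

end Pool.Agent.Y85.Hyp
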