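import Mathlib
import Pool.Agent.Y85.HypE

/-!
# Automorphisms and isomorphism classes
-/

set_option autoImplicit false

namespace Pool.Agent.Y85.Hyp

open Finset

/-- A finite group of order `n` is generated by at most `log₂ n` elements. -/
theorem exists_gen (G : Type) [Group G] [Finite G] :
    ∃ S : Finset G, Subgroup.closure (S : Set G) = ⊤ ∧ 2 ^ S.card ≤ Nat.card G := by
  classical
  have : Fintype G := Fintype.ofFinite G
  obtain ⟨S, hS1, hS2⟩ := Finset.exists_max_image
    ((Finset.univ : Finset (Finset G)).filter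
      (fun S : Finset G => 2 ^ S.card ≤ Nat.card (Subgroup.closure (S : Set G))))
    (fun S : Finset G => Nat.card (Subgroup.closure (S : Set G))) ⟨∅, by simp⟩
  rw [Finset.mem_filter] at hS1
  have htop : Subgroup.closure (S : Set G) = ⊤ := by
    by_contra hne
    obtain ⟨x, hx⟩ : ∃ x, x ∉ Subgroup.closure (S : Set G) := by
      by_contra hall
      push Not at hall
      exact hne ((Subgroup.eq_top_iff' _).2 hall)
    have hxS : x ∉ S := fun h => hx (Subgroup.subset_closure h)
    have hle : Subgroup.closure (S : Set G) ≤ Subgroup.closure ((insert x S : Finset G) : Set G) :=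
      Subgroup.closure_mono (by simp)
    have hx' : x ∈ Subgroup.closure ((insert x S : Finset G) : Set G) :=
      Subgroup.subset_closure (by simp)
    have hdvd := Subgroup.card_dvd_of_le hle
    have hne' : Nat.card (Subgroup.closure (S : Set G)) ≠
        Nat.card (Subgroup.closure ((insert x S : Finset G) : Set G)) := by
      intro he
      have := Subgroup.eq_of_le_of_card_ge hle he.ge
      rw [this] at hx
      exact hx hx'
    have hpos : 0 < Nat.card (Subgroup.closure ((insert x S : Finset G) : Set G)) := Nat.card_pos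
    obtain ⟨k, hk⟩ := hdvd
    have hpos' : 0 < Nat.card (Subgroup.closure (S : Set G)) := Nat.card_pos
    have hk2 : 2 ≤ k := by
      rcases k with _ | _ | k
      · omega
      · rw [zero_add, mul_one] at hk
        exact absurd hk.symm hne'
      · omega
    have h2 : 2 ^ (insert x S).card ≤
        Nat.card (Subgroup.closure ((insert x S : Finset G) : Set G)) := by
      rw [Finset.card_insert_of_notMem hxS, pow_succ, hk]
      exact Nat.mul_le_mul hS1.2 hk2
    have h3 := hS2 _ (Finset.mem_filter.2 ⟨Finset.mem_univ _, h2⟩)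
    have h4 : Nat.card (Subgroup.closure (S : Set G)) <
        Nat.card (Subgroup.closure ((insert x S : Finset G) : Set G)) := by
      rw [hk]
      nlinarith
    omega
  refine ⟨S, htop, ?_⟩
  have h5 := hS1.2
  rw [htop, Subgroup.card_top] at h5
  exact h5

section Aut

variable {r : ℕ} {m m' : Tb r}

/-- isomorphisms of multiplication tables -/
def TIso (m m' : Tb r) (e : Fin (r + 1) ≃ Fin (r + 1)) : Prop :=
  ∀ a b, e (m a b) = m' (e a) (e b)

theorem TIso.map_zero (hm : IsTab m) (hm' : IsTab m') {e : Fin (r + 1) ≃ Fin (r + 1)}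
    (he : TIso m m' e) : e 0 = 0 := by
  obtain ⟨a, ha⟩ := e.surjective 0
  have h1 := he 0 a
  rw [hm.zero, ha, hm'.mul_zero] at h1
  exact h1

theorem TIso.symm {e : Fin (r + 1) ≃ Fin (r + 1)} (he : TIso m m' e) : TIso m' m e.symm := by
  intro a b
  rw [Equiv.symm_apply_eq, he, Equiv.apply_symm_apply, Equiv.apply_symm_apply]

/-- an automorphism as a homomorphism of the group of nonzero elements -/
noncomputable def autHom (hm : IsTab m) (e : Fin (r + 1) ≃ Fin (r + 1)) (he : TIso m m e) :
    (let _ := hm.group; Nz r →* Nz r) :=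
  let _ := hm.group
  MonoidHom.mk' (fun x : Nz r => (⟨e x.1, fun h => x.2 (by
      have := he.map_zero hm hm
      exact e.injective (h.trans this.symm))⟩ : Nz r))
    (fun x y => Subtype.ext (he x.1 y.1))

theorem card_aut (hm : IsTab m) :
    Set.ncard {e : Fin (r + 1) ≃ Fin (r + 1) | TIso m m e} ≤ (r + 1) ^ Nat.log 2 r := by
  classical
  let _ := hm.group
  obtain ⟨S, hS1, hS2⟩ := exists_gen (Nz r)
  rw [Nat.card_eq_fintype_card, card_Nz] at hS2
  have h1 : Set.ncard {e : Fin (r + 1) ≃ Fin (r + 1) | TIso m m e} ≤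
      Set.ncard (Set.univ : Set (S → Fin (r + 1))) := by
    refine Set.ncard_le_ncard_of_injOn (fun e => fun s : S => e s.1.1) (fun _ _ => Set.mem_univ _)
      ?_ (Set.toFinite _)
    intro e he e' he' hee
    have h2 : autHom hm e he = autHom hm e' he' := by
      refine MonoidHom.eq_of_eqOn_dense (f := autHom hm e he) (g := autHom hm e' he') hS1 ?_
      intro x hx
      apply Subtype.ext
      exact congrFun hee ⟨x, hx⟩
    ext a
    by_cases ha : a = 0
    · rw [ha, TIso.map_zero hm hm he, TIso.map_zero hm hm he']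
    · have h3 := congrArg (fun φ => (φ ⟨a, ha⟩ : Nz r).1) h2
      exact congrArg Fin.val h3
  refine h1.trans ?_
  rw [Set.ncard_univ, Nat.card_eq_fintype_card, Fintype.card_fun, Fintype.card_fin,
    Fintype.card_coe]
  apply Nat.pow_le_pow_right (by omega)
  rcases Nat.eq_zero_or_pos r with hr | hr
  · subst hr
    have := Nat.one_le_two_pow (n := S.card)
    omega
  · exact Nat.le_log_of_pow_le (by norm_num) hS2

end Aut

section IsoLemmas

variable {r : ℕ}

theorem Iso.refl (p : Tb r × Ad r) : Iso p p := ⟨Equiv.refl _, fun a b => ⟨rfl, by simp⟩⟩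

theorem Iso.symm {p q : Tb r × Ad r} (h : Iso p q) : Iso q p := by
  obtain ⟨e, he⟩ := h
  refine ⟨e.symm, fun a b => ⟨?_, ?_⟩⟩
  · rw [Equiv.symm_apply_eq, (he _ _).1, Equiv.apply_symm_apply, Equiv.apply_symm_apply]
  · have h1 := (he (e.symm a) (e.symm b)).2
    rw [Equiv.apply_symm_apply, Equiv.apply_symm_apply] at h1
    rw [← h1, ← Set.image_comp]
    simp

theorem Iso.trans {p q s : Tb r × Ad r} (h : Iso p q) (h' : Iso q s) : Iso p s := by
  obtain ⟨e, he⟩ := h
  obtain ⟨e', he'⟩ := h'
  refine ⟨e.trans e', fun a b => ⟨?_, ?_⟩⟩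
  · simp only [Equiv.trans_apply]
    rw [(he _ _).1, (he' _ _).1]
  · simp only [Equiv.trans_apply]
    rw [← (he' _ _).2, ← (he _ _).2, ← Set.image_comp]
    rfl

/-- the class of `p` among structures with property `P` -/
def cls (P : Tb r × Ad r → Prop) (p : Tb r × Ad r) : Set (Tb r × Ad r) := {q | P q ∧ Iso p q}

/-- the set of classes -/
def Cl (P : Tb r × Ad r → Prop) : Set (Set (Tb r × Ad r)) := {C | ∃ p, P p ∧ C = cls P p}

theorem cls_eq {P : Tb r × Ad r → Prop} {p q : Tb r × Ad r} (h : Iso p q) : cls P p = cls P q := by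
  ext s
  exact ⟨fun hs => ⟨hs.1, h.symm.trans hs.2⟩, fun hs => ⟨hs.1, h.trans hs.2⟩⟩

/-- transport of a hyperaddition -/
def push (e : Fin (r + 1) ≃ Fin (r + 1)) (h : Ad r) : Ad r := fun a b => e '' h (e.symm a) (e.symm b)

theorem mem_push {e : Fin (r + 1) ≃ Fin (r + 1)} {h : Ad r} {a b c : Fin (r + 1)} :
    c ∈ push e h a b ↔ e.symm c ∈ h (e.symm a) (e.symm b) := Set.mem_image_equiv

theorem iso_push {m m' : Tb r} {e : Fin (r + 1) ≃ Fin (r + 1)} (he : TIso m m' e) (h : Ad r) :
    Iso (m, h) (m', push e h) := by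
  refine ⟨e, fun a b => ⟨he a b, ?_⟩⟩
  show e '' h a b = e '' h (e.symm (e a)) (e.symm (e b))
  rw [Equiv.symm_apply_apply, Equiv.symm_apply_apply]

theorem Weak.push {m m' : Tb r} {h : Ad r} (hw : Weak m h) (hm : IsTab m) (hm' : IsTab m')
    {e : Fin (r + 1) ≃ Fin (r + 1)} (he : TIso m m' e) : Weak m' (push e h) := by
  have h0 : e 0 = 0 := he.map_zero hm hm'
  have h0' : e.symm 0 = 0 := by rw [Equiv.symm_apply_eq, h0]
  refine ⟨?_, ?_, ?_, ?_, ?_⟩
  · intro a b
    ext c
    rw [mem_push, mem_push, hw.comm]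
  · intro a
    ext c
    rw [mem_push, h0', hw.zero]
    simp
  · intro a
    obtain ⟨b, hb, hb'⟩ := hw.neg (e.symm a)
    refine ⟨e b, ?_, fun c hc => ?_⟩
    · show (0 : Fin (r + 1)) ∈ Hyp.push e h a (e b)
      rw [mem_push, h0', Equiv.symm_apply_apply]
      exact hb
    · have hc' : (0 : Fin (r + 1)) ∈ Hyp.push e h a c := hc
      rw [mem_push, h0'] at hc'
      rw [← hb' _ hc', Equiv.apply_symm_apply]
  · intro a b c d h1 h2
    rw [mem_push] at h1 h2 ⊢
    rw [h0'] at h2
    exact hw.rev _ _ _ _ h1 h2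
  · intro a b c
    ext x
    rw [mem_push, he.symm, he.symm, ← hw.distr]
    constructor
    · rintro ⟨y, hy, rfl⟩
      rw [mem_push] at hy
      exact ⟨e.symm y, hy, (he.symm _ _).symm⟩
    · rintro ⟨y, hy, hyx⟩
      refine ⟨e y, ?_, ?_⟩
      · rw [mem_push, Equiv.symm_apply_apply]
        exact hy
      · apply e.symm.injective
        show e.symm (m' a (e y)) = _
        rw [he.symm, Equiv.symm_apply_apply]
        exact hyx

theorem Full.push {m m' : Tb r} {h : Ad r} (hf : Full m h) (hm : IsTab m) (hm' : IsTab m')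
    {e : Fin (r + 1) ≃ Fin (r + 1)} (he : TIso m m' e) : Full m' (push e h) := by
  have h0 : e 0 = 0 := he.map_zero hm hm'
  have h0' : e.symm 0 = 0 := by rw [Equiv.symm_apply_eq, h0]
  intro u ε hu hε
  rw [mem_push, h0'] at hε
  have h1 := hf (e.symm u) (e.symm ε) (fun a => by
    apply e.injective
    rw [he, Equiv.apply_symm_apply, hu]) hε
  ext x
  rw [mem_push, h1]
  simp

end IsoLemmas

section Classes

variable {r : ℕ}

/-- the relation of isomorphism of tables -/
def tabSetoid (r : ℕ) : Setoid (Tb r) where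
  r m m' := ∃ e, TIso m m' e
  iseqv := ⟨fun m => ⟨Equiv.refl _, fun _ _ => rfl⟩, fun ⟨e, he⟩ => ⟨e.symm, he.symm⟩,
    fun ⟨e, he⟩ ⟨e', he'⟩ => ⟨e.trans e', fun a b => by
      simp only [Equiv.trans_apply]
      rw [he, he']⟩⟩

theorem IsTab.of_iso {m m' : Tb r} (hm : IsTab m) {e : Fin (r + 1) ≃ Fin (r + 1)}
    (he : TIso m m' e) (h0 : e 0 = 0) : IsTab m' := by
  have he' := he.symm
  have h0' : e.symm 0 = 0 := by rw [Equiv.symm_apply_eq, h0]
  have hne : ∀ a, a ≠ 0 → e.symm a ≠ 0 := by
    intro a ha h1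
    rw [Equiv.symm_apply_eq, h0] at h1
    exact ha h1
  refine ⟨?_, ?_, ?_, ?_, ?_, ?_⟩
  · obtain ⟨u, hu, hu'⟩ := hm.unit
    refine ⟨e u, ?_, fun a => ?_⟩
    · intro h1
      rw [← h0] at h1
      exact hu (e.injective h1)
    · apply e.symm.injective
      rw [he', Equiv.symm_apply_apply, hu']
  · intro a b
    apply e.symm.injective
    rw [he', he', hm.comm]
  · intro a b c
    apply e.symm.injective
    rw [he', he', he', he', hm.assoc]
  · intro a
    apply e.symm.injective
    rw [he', h0', hm.zero]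
  · intro a b ha hb h1
    have h2 := congrArg e.symm h1
    rw [he', h0'] at h2
    exact hm.nz _ _ (hne a ha) (hne b hb) h2
  · intro a ha
    obtain ⟨b, hb⟩ := hm.inv (e.symm a) (hne a ha)
    refine ⟨e b, fun c => ?_⟩
    apply e.symm.injective
    rw [he', he', Equiv.symm_apply_apply, hb]

/-- the classes of hyperfields that have a member with multiplication `m` -/
def ClM (m : Tb r) : Set (Set (Tb r × Ad r)) := {C | ∃ h, IsHyp (m, h) ∧ C = cls IsHyp (m, h)}

theorem card_S_le {m : Tb r} (hm : IsTab m) :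
    Set.ncard {h : Ad r | IsHyp (m, h)} ≤ (r + 1) ^ Nat.log 2 r * (ClM m).ncard := by
  classical
  set S : Finset (Ad r) := (Set.toFinite {h : Ad r | IsHyp (m, h)}).toFinset with hS
  have h1 : Set.ncard {h : Ad r | IsHyp (m, h)} = S.card := Set.ncard_eq_toFinset_card _ _
  have h2 : (ClM m).ncard = (S.image (fun h => cls IsHyp (m, h))).card := by
    rw [← Set.ncard_coe_finset]
    congr 1
    ext C
    simp only [ClM, Finset.coe_image, Set.mem_image, hS, Set.Finite.coe_toFinset]
    constructor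
    · rintro ⟨h, hh, rfl⟩
      exact ⟨h, hh, rfl⟩
    · rintro ⟨h, hh, rfl⟩
      exact ⟨h, hh, rfl⟩
  rw [h1, h2]
  apply Finset.card_le_mul_card_image
  intro C hC
  obtain ⟨h0, hh0, rfl⟩ := Finset.mem_image.1 hC
  refine le_trans ?_ (card_aut hm)
  rw [← Set.ncard_coe_finset]
  have h3 : ((S.filter (fun h => cls IsHyp (m, h) = cls IsHyp (m, h0)) : Finset (Ad r)) :
      Set (Ad r)) ⊆ (fun e => push e h0) '' {e : Fin (r + 1) ≃ Fin (r + 1) | TIso m m e} := by
    intro h hh
    rw [Finset.mem_coe, Finset.mem_filter] at hh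
    have hhS : IsHyp (m, h) := by
      have := hh.1
      rw [hS, Set.Finite.mem_toFinset] at this
      exact this
    have h4 : (m, h) ∈ cls IsHyp (m, h0) := by
      rw [← hh.2]
      exact ⟨hhS, Iso.refl _⟩
    obtain ⟨e, he⟩ := h4.2
    refine ⟨e, fun a b => (he a b).1, ?_⟩
    funext a b
    have h5 := (he (e.symm a) (e.symm b)).2
    rw [Equiv.apply_symm_apply, Equiv.apply_symm_apply] at h5
    exact h5
  exact (Set.ncard_le_ncard h3 (Set.toFinite _)).trans (Set.ncard_image_le (Set.toFinite _))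

end Classes

end Pool.Agent.Y85.Hyp
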