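import Mathlib
import Pool.Agent.Y85.HypF

/-!
# Counting classes
-/

set_option autoImplicit false

namespace Pool.Agent.Y85.Hyp

open Finset

section Small

variable {r : ℕ}

theorem mem_iff_pow {K : Type} [Field K] {G : Subgroup Kˣ} [Finite K] (g : Kˣ) : g ∈ G ↔ g ^ Nat.card G = 1 := by
  classical
  have : Fintype K := Fintype.ofFinite K
  constructor
  · intro hg
    have h1 : (⟨g, hg⟩ : G) ^ Nat.card G = 1 := pow_card_eq_one'
    exact congrArg Subtype.val h1
  · intro hg
    have h1 : (Finset.univ.filter (fun x : Kˣ => x ∈ G)) ⊆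
        (Finset.univ.filter (fun x : Kˣ => x ^ Nat.card G = 1)) := by
      intro x hx
      rw [Finset.mem_filter] at hx ⊢
      refine ⟨Finset.mem_univ _, ?_⟩
      have h1 : (⟨x, hx.2⟩ : G) ^ Nat.card G = 1 := pow_card_eq_one'
      exact congrArg Subtype.val h1
    have h2 : (Finset.univ.filter (fun x : Kˣ => x ^ Nat.card G = 1)).card ≤ Nat.card G :=
      IsCyclic.card_pow_eq_one_le Nat.card_pos
    have h3 : (Finset.univ.filter (fun x : Kˣ => x ∈ G)).card = Nat.card G := by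
      rw [Nat.card_eq_fintype_card, Fintype.card_subtype]
    have h4 := Finset.eq_of_subset_of_card_le h1 (by omega)
    have h5 : g ∈ (Finset.univ.filter (fun x : Kˣ => x ^ Nat.card G = 1)) :=
      Finset.mem_filter.2 ⟨Finset.mem_univ _, hg⟩
    rw [← h4] at h5
    exact (Finset.mem_filter.1 h5).2

/-- `p` is a quotient of a small finite field -/
def SmallQ (p : Tb r × Ad r) (n : ℕ) : Prop :=
  ∃ (K : Type) (_ : Field K) (_ : Finite K), ∃ G : Subgroup Kˣ, ∃ f : K → Fin (r+1),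
    Nat.card K = n ∧ QuotMap G f ∧
    (∀ x y : K, f (x * y) = p.1 (f x) (f y)) ∧
    (∀ x y : K, p.2 (f x) (f y) =
      {z | ∃ g ∈ G, ∃ h ∈ G, z = f (x * (g : K) + y * (h : K))})

theorem small_iso (hr : 0 < r) {p p' : Tb r × Ad r} {n : ℕ} (h : SmallQ p n) (h' : SmallQ p' n) :
    Iso p p' := by
  obtain ⟨K, _, _, G, f, hn, hf, hmul, hadd⟩ := h
  obtain ⟨K', _, _, G', f', hn', hf', hmul', hadd'⟩ := h'
  have : Fintype K := Fintype.ofFinite K
  have : Fintype K' := Fintype.ofFinite K'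
  have hc1 := hf.card_eq
  have hc2 := hf'.card_eq
  rw [Nat.card_eq_fintype_card] at hn hn'
  have hG : Nat.card G = Nat.card G' := by
    have h1 : r * Nat.card G = r * Nat.card G' := by omega
    exact Nat.eq_of_mul_eq_mul_left hr h1
  let φ : K ≃+* K' := FiniteField.ringEquivOfCardEq (hn.trans hn'.symm)
  have hφG : ∀ g : Kˣ, g ∈ G ↔ Units.map (φ : K →* K') g ∈ G' := by
    intro g
    rw [mem_iff_pow, mem_iff_pow, ← hG, ← map_pow]
    constructor
    · intro h
      rw [h, map_one]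
    · intro h
      apply Units.ext
      apply φ.injective
      have := congrArg Units.val h
      simpa using this
  have hff : ∀ x y : K, f x = f y ↔ f' (φ x) = f' (φ y) := by
    intro x y
    rw [hf.fib, hf'.fib]
    constructor
    · rintro ⟨g, hg, rfl⟩
      exact ⟨_, (hφG g).1 hg, by simp⟩
    · rintro ⟨g, hg, he⟩
      refine ⟨Units.map (φ.symm : K' →* K) g, ?_, ?_⟩
      · rw [hφG]
        convert! hg
        apply Units.ext
        simp
      · apply φ.injective
        rw [he]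
        simp
  choose s hs using hf.surj
  let e0 : Fin (r + 1) → Fin (r + 1) := fun a => f' (φ (s a))
  have he0 : ∀ x, e0 (f x) = f' (φ x) := fun x => (hff _ _).1 (hs (f x))
  have hinj : Function.Injective e0 := by
    intro a b hab
    have := (hff _ _).2 hab
    rwa [hs, hs] at this
  let e : Fin (r + 1) ≃ Fin (r + 1) := Equiv.ofBijective e0 (Finite.injective_iff_bijective.1 hinj)
  refine ⟨e, fun a b => ?_⟩
  obtain ⟨x, rfl⟩ := hf.surj a
  obtain ⟨y, rfl⟩ := hf.surj b
  have hex : ∀ x, e (f x) = f' (φ x) := he0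
  constructor
  · rw [← hmul, hex, hex, hex, ← hmul', map_mul]
  · rw [hadd, hex, hex, hadd']
    ext z
    constructor
    · rintro ⟨_, ⟨g, hg, g', hg', rfl⟩, rfl⟩
      refine ⟨_, (hφG g).1 hg, _, (hφG g').1 hg', ?_⟩
      rw [hex]
      simp
    · rintro ⟨g, hg, g', hg', rfl⟩
      refine ⟨f (x * (Units.map (φ.symm : K' →* K) g : Kˣ) +
        y * (Units.map (φ.symm : K' →* K) g' : Kˣ)), ⟨_, ?_, _, ?_, rfl⟩, ?_⟩
      · rw [hφG]
        convert! hg
        apply Units.ext
        simp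
      · rw [hφG]
        convert! hg'
        apply Units.ext
        simp
      · rw [hex]
        simp

theorem card_small (hr : 0 < r) (P : Tb r × Ad r → Prop) :
    Set.ncard {C | ∃ p n, n ≤ 16 * r ^ 4 ∧ SmallQ p n ∧ C = cls P p} ≤ 16 * r ^ 4 + 1 := by
  classical
  have h1 : ∀ C : Set (Tb r × Ad r), ∃ n, C ∈ {C | ∃ p n, n ≤ 16 * r ^ 4 ∧ SmallQ p n ∧
      C = cls P p} → n ≤ 16 * r ^ 4 ∧ ∃ p, SmallQ p n ∧ C = cls P p := by
    intro C
    by_cases hC : C ∈ {C | ∃ p n, n ≤ 16 * r ^ 4 ∧ SmallQ p n ∧ C = cls P p}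
    · obtain ⟨p, n, hn, hp, he⟩ := hC
      exact ⟨n, fun _ => ⟨hn, p, hp, he⟩⟩
    · exact ⟨0, fun h => absurd h hC⟩
  choose F hF using h1
  have h2 := Set.ncard_le_ncard_of_injOn (s := {C | ∃ p n, n ≤ 16 * r ^ 4 ∧ SmallQ p n ∧
      C = cls P p}) (t := ((Finset.range (16 * r ^ 4 + 1) : Finset ℕ) : Set ℕ)) F (by
    intro C hC
    rw [Finset.mem_coe, Finset.mem_range]
    have := (hF C hC).1
    omega) (by
    intro C hC C' hC' he
    obtain ⟨_, p, hp, hpe⟩ := hF C hC
    obtain ⟨_, p', hp', hpe'⟩ := hF C' hC'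
    rw [he] at hp
    rw [hpe, hpe']
    exact cls_eq (small_iso hr hp hp')) (Set.toFinite _)
  rwa [Set.ncard_coe_finset, Finset.card_range] at h2

end Small

section Exists

/-- A table: the cyclic group of order `r` with a zero. -/
def cyc (r : ℕ) : Tb (r + 1) := fun a b =>
  Fin.cases 0 (fun i => Fin.cases 0 (fun j => (i + j).succ) b) a

theorem isTab_cyc (r : ℕ) : IsTab (cyc r) where
  unit := by
    refine ⟨Fin.succ 0, Fin.succ_ne_zero 0, fun a => ?_⟩
    refine Fin.cases ?_ (fun i => ?_) a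
    · simp only [cyc, Fin.cases_succ, Fin.cases_zero]
    · simp only [cyc, Fin.cases_succ, zero_add]
  comm a b := by
    refine Fin.cases ?_ (fun i => ?_) a <;> refine Fin.cases ?_ (fun j => ?_) b
    · rfl
    · simp only [cyc, Fin.cases_succ, Fin.cases_zero]
    · simp only [cyc, Fin.cases_succ, Fin.cases_zero]
    · simp only [cyc, Fin.cases_succ]
      exact congrArg Fin.succ (add_comm i j)
  assoc a b c := by
    refine Fin.cases ?_ (fun i => ?_) a <;> refine Fin.cases ?_ (fun j => ?_) b <;>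
      refine Fin.cases ?_ (fun k => ?_) c <;>
      simp only [cyc, Fin.cases_succ, Fin.cases_zero, add_assoc]
  zero a := by simp only [cyc, Fin.cases_zero]
  nz a b := by
    refine Fin.cases ?_ (fun i => ?_) a <;> refine Fin.cases ?_ (fun j => ?_) b
    · intro h; exact absurd rfl h
    · intro h; exact absurd rfl h
    · intro _ h; exact absurd rfl h
    · intro _ _
      simp only [cyc, Fin.cases_succ]
      exact Fin.succ_ne_zero _
  inv a := by
    refine Fin.cases ?_ (fun i => ?_) a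
    · intro h; exact absurd rfl h
    · intro _
      refine ⟨Fin.succ (-i), fun c => ?_⟩
      refine Fin.cases ?_ (fun k => ?_) c
      · simp only [cyc, Fin.cases_succ, Fin.cases_zero]
      · simp only [cyc, Fin.cases_succ, add_neg_cancel, zero_add]

theorem exists_tab {r : ℕ} (hr : 0 < r) : ∃ m : Tb r, IsTab m := by
  obtain ⟨k, rfl⟩ : ∃ k, r = k + 1 := ⟨r - 1, by omega⟩
  exact ⟨cyc k, isTab_cyc k⟩

end Exists

section Main

variable {r : ℕ}

/-- For a fixed table: the number of structures with `1 - 1` everything against the number of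
classes of hyperfields. -/
theorem table_ineq {m : Tb r} (hm : IsTab m)
    (hk : 2 * r ^ 4 * 3 ^ (r / 36) ≤ 4 ^ (r / 36)) :
    Set.ncard {h : Ad r | Weak m h ∧ Full m h} * 2 ^ (r / 9) ≤
      2 * r * (r + 1) ^ Nat.log 2 r * (ClM m).ncard ∧
    2 ^ (r / 9) ≤ 2 * (r + 1) ^ Nat.log 2 r * (ClM m).ncard := by
  classical
  have : Fintype (@Om (Nz r) hm.group) := Fintype.ofFinite _
  have h1 := card_full_le hm
  have h2 := card_hyp_ge hm
  have h3 := card_S_le hm
  have h4 := card_Om_ge hm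
  set N := Fintype.card (@Om (Nz r) hm.group)
  set S := Set.ncard {h : Ad r | IsHyp (m, h)}
  set A := (r + 1) ^ Nat.log 2 r
  set F := Set.ncard {h : Ad r | Weak m h ∧ Full m h}
  set c := (ClM m).ncard
  have h5 : 2 ^ N ≤ 2 * S := by
    have h6 : 2 * (r ^ 4 * (3 ^ (r / 36) * 2 ^ N)) ≤ 4 ^ (r / 36) * 2 ^ N := by
      calc 2 * (r ^ 4 * (3 ^ (r / 36) * 2 ^ N)) = (2 * r ^ 4 * 3 ^ (r / 36)) * 2 ^ N := by ring
        _ ≤ 4 ^ (r / 36) * 2 ^ N := Nat.mul_le_mul_right _ hk
    have h7 : 2 ^ N * 4 ^ (r / 36) ≤ (2 * S) * 4 ^ (r / 36) := by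
      nlinarith
    exact Nat.le_of_mul_le_mul_right h7 (by positivity)
  constructor
  · calc F * 2 ^ (r / 9) ≤ r * 2 ^ N := h1
      _ ≤ r * (2 * S) := Nat.mul_le_mul_left r h5
      _ ≤ r * (2 * (A * c)) := Nat.mul_le_mul_left r (Nat.mul_le_mul_left 2 h3)
      _ = 2 * r * A * c := by ring
  · calc 2 ^ (r / 9) ≤ 2 ^ N := Nat.pow_le_pow_right (by norm_num) (by omega)
      _ ≤ 2 * S := h5
      _ ≤ 2 * (A * c) := Nat.mul_le_mul_left 2 h3
      _ = 2 * A * c := by ring

theorem ClM_subset (m : Tb r) : ClM m ⊆ Cl (r := r) IsHyp := by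
  rintro C ⟨h, hh, rfl⟩
  exact ⟨(m, h), hh, rfl⟩

theorem ClM_disj {m m' : Tb r} {C : Set (Tb r × Ad r)} (h : C ∈ ClM m) (h' : C ∈ ClM m') :
    (tabSetoid r).r m m' := by
  obtain ⟨a, ha, rfl⟩ := h
  obtain ⟨b, hb, he⟩ := h'
  have h1 : (m', b) ∈ cls IsHyp (m, a) := by
    rw [he]
    exact ⟨hb, Iso.refl _⟩
  obtain ⟨e, he⟩ := h1.2
  exact ⟨e, fun x y => (he x y).1⟩

theorem main_ineq (hr : 0 < r) (hk : 2 * r ^ 4 * 3 ^ (r / 36) ≤ 4 ^ (r / 36)) :
    (Cl (r := r) IsQuot).ncard * 2 ^ (r / 9) ≤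
      (2 * r + 2 * (16 * r ^ 4 + 1)) * (r + 1) ^ Nat.log 2 r * (Cl (r := r) IsHyp).ncard := by
  classical
  -- classes of tables
  let Cc : Type := {c : Quotient (tabSetoid r) // ∃ m, IsTab m ∧ Quotient.mk (tabSetoid r) m = c}
  have : Finite Cc := inferInstanceAs (Finite {c : Quotient (tabSetoid r) //
    ∃ m, IsTab m ∧ Quotient.mk (tabSetoid r) m = c})
  have : Fintype Cc := Fintype.ofFinite Cc
  choose rep hrep hrep2 using fun c : Cc => c.2
  set A := (r + 1) ^ Nat.log 2 r with hA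
  set H := (Cl (r := r) IsHyp).ncard with hH
  -- the classes of hyperfields, sorted by table
  have hsum : ∑ c : Cc, (ClM (rep c)).ncard ≤ H := by
    have h1 : ∑ c : Cc, (ClM (rep c)).ncard =
        (Finset.univ.biUnion (fun c : Cc => (Set.toFinite (ClM (rep c))).toFinset)).card := by
      rw [Finset.card_biUnion]
      · exact Finset.sum_congr rfl fun c _ => Set.ncard_eq_toFinset_card _ _
      · intro c _ c' _ hcc
        rw [Function.onFun, Finset.disjoint_left]
        intro C hC hC'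
        rw [Set.Finite.mem_toFinset] at hC hC'
        apply hcc
        apply Subtype.ext
        rw [← hrep2 c, ← hrep2 c']
        exact Quotient.sound (ClM_disj hC hC')
    rw [h1, ← Set.ncard_coe_finset]
    refine Set.ncard_le_ncard ?_ (Set.toFinite _)
    intro C hC
    rw [Finset.mem_coe, Finset.mem_biUnion] at hC
    obtain ⟨c, _, hC⟩ := hC
    rw [Set.Finite.mem_toFinset] at hC
    exact ClM_subset _ hC
  -- the classes of quotients
  have hQ : (Cl (r := r) IsQuot).ncard ≤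
      ∑ c : Cc, Set.ncard {h : Ad r | Weak (rep c) h ∧ Full (rep c) h} + (16 * r ^ 4 + 1) := by
    have hsub : Cl (r := r) IsQuot ⊆
        ((Finset.univ.biUnion (fun c : Cc => (Set.toFinite ((fun h => cls IsQuot (rep c, h)) ''
          {h : Ad r | Weak (rep c) h ∧ Full (rep c) h})).toFinset) :
            Finset (Set (Tb r × Ad r))) : Set (Set (Tb r × Ad r))) ∪
          {C | ∃ p n, n ≤ 16 * r ^ 4 ∧ SmallQ p n ∧ C = cls IsQuot p} := by
      rintro C ⟨p, hp, rfl⟩
      obtain ⟨⟨ht, hw⟩, hcase⟩ := quot_cases hr hp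
      rcases hcase with hfull | ⟨K, i1, i2, G, f, hn, h1, h2, h3⟩
      · left
        rw [Finset.mem_coe, Finset.mem_biUnion]
        let c : Cc := ⟨Quotient.mk (tabSetoid r) p.1, p.1, ht, rfl⟩
        obtain ⟨e, he⟩ : ∃ e, TIso p.1 (rep c) e := by
          have := Quotient.exact (hrep2 c).symm
          exact this
        refine ⟨c, Finset.mem_univ _, ?_⟩
        rw [Set.Finite.mem_toFinset]
        refine ⟨push e p.2, ⟨hw.push ht (hrep c) he, hfull.push ht (hrep c) he⟩, ?_⟩
        exact (cls_eq (iso_push he p.2)).symm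
      · right
        exact ⟨p, Nat.card K, hn, ⟨K, i1, i2, G, f, rfl, h1, h2, h3⟩, rfl⟩
    refine (Set.ncard_le_ncard hsub (Set.toFinite _)).trans ((Set.ncard_union_le _ _).trans ?_)
    refine add_le_add ?_ (card_small hr IsQuot)
    rw [Set.ncard_coe_finset]
    refine Finset.card_biUnion_le.trans (Finset.sum_le_sum fun c _ => ?_)
    rw [← Set.ncard_eq_toFinset_card]
    exact Set.ncard_image_le (Set.toFinite _)
  obtain ⟨m0, hm0⟩ := exists_tab hr
  have hlow : 2 ^ (r / 9) ≤ 2 * A * H :=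
    (table_ineq hm0 hk).2.trans (Nat.mul_le_mul_left _
      (Set.ncard_le_ncard (ClM_subset m0) (Set.toFinite _)))
  calc (Cl (r := r) IsQuot).ncard * 2 ^ (r / 9)
      ≤ (∑ c : Cc, Set.ncard {h : Ad r | Weak (rep c) h ∧ Full (rep c) h} + (16 * r ^ 4 + 1)) *
        2 ^ (r / 9) := Nat.mul_le_mul_right _ hQ
    _ = ∑ c : Cc, Set.ncard {h : Ad r | Weak (rep c) h ∧ Full (rep c) h} * 2 ^ (r / 9) +
        (16 * r ^ 4 + 1) * 2 ^ (r / 9) := by rw [add_mul, Finset.sum_mul]
    _ ≤ ∑ c : Cc, 2 * r * A * (ClM (rep c)).ncard + (16 * r ^ 4 + 1) * (2 * A * H) :=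
        add_le_add (Finset.sum_le_sum fun c _ => (table_ineq (hrep c) hk).1)
          (Nat.mul_le_mul_left _ hlow)
    _ = 2 * r * A * ∑ c : Cc, (ClM (rep c)).ncard + (16 * r ^ 4 + 1) * (2 * A * H) := by
        rw [Finset.mul_sum]
    _ ≤ 2 * r * A * H + (16 * r ^ 4 + 1) * (2 * A * H) :=
        add_le_add (Nat.mul_le_mul_left _ hsum) le_rfl
    _ = _ := by ring

end Main

end Pool.Agent.Y85.Hyp
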