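import Mathlib
import Pool.Agent.Y85.HypG

/-!
# The limit
-/

set_option autoImplicit false

namespace Pool.Agent.Y85.Hyp

theorem aux1 (j : ℕ) : 2 * (36 * (j + 131)) ^ 4 * 3 ^ (j + 130) ≤ 4 ^ (j + 130) := by
  induction j with
  | zero => norm_num
  | succ j ih =>
    have h1 : 3 * (j + 132) ^ 4 ≤ 4 * (j + 131) ^ 4 := by
      have e : 4 * (j + 131) ^ 4 = 3 * (j + 132) ^ 4 +
          (j ^ 4 + 512 * j ^ 3 + 98232 * j ^ 2 + 8369840 * j + 267212356) := by ring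
      rw [e]
      exact Nat.le_add_right _ _
    calc 2 * (36 * (j + 1 + 131)) ^ 4 * 3 ^ (j + 1 + 130)
        = 2 * 36 ^ 4 * (3 * (j + 132) ^ 4) * 3 ^ (j + 130) := by ring
      _ ≤ 2 * 36 ^ 4 * (4 * (j + 131) ^ 4) * 3 ^ (j + 130) :=
          Nat.mul_le_mul_right _ (Nat.mul_le_mul_left _ h1)
      _ = (2 * (36 * (j + 131)) ^ 4 * 3 ^ (j + 130)) * 4 := by ring
      _ ≤ 4 ^ (j + 130) * 4 := Nat.mul_le_mul_right _ ih
      _ = 4 ^ (j + 1 + 130) := by ring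

theorem aux2 {r : ℕ} (hr : 5000 ≤ r) : 2 * r ^ 4 * 3 ^ (r / 36) ≤ 4 ^ (r / 36) := by
  obtain ⟨j, hj⟩ : ∃ j, r / 36 = j + 130 := ⟨r / 36 - 130, by omega⟩
  have h1 : r ≤ 36 * (j + 131) := by omega
  rw [hj]
  calc 2 * r ^ 4 * 3 ^ (j + 130) ≤ 2 * (36 * (j + 131)) ^ 4 * 3 ^ (j + 130) :=
        Nat.mul_le_mul_right _ (Nat.mul_le_mul_left _ (Nat.pow_le_pow_left h1 4))
    _ ≤ 4 ^ (j + 130) := aux1 j

theorem aux3 (j : ℕ) : 9 * (6 + (j + 13) * (j + 16) + (j + 12)) + 9 ≤ 2 ^ (j + 12) := by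
  induction j with
  | zero => norm_num
  | succ j ih =>
    calc 9 * (6 + (j + 1 + 13) * (j + 1 + 16) + (j + 1 + 12)) + 9
        ≤ 2 * (9 * (6 + (j + 13) * (j + 16) + (j + 12)) + 9) := by nlinarith
      _ ≤ 2 * 2 ^ (j + 12) := Nat.mul_le_mul_left _ ih
      _ = 2 ^ (j + 1 + 12) := by ring

theorem aux4 {r : ℕ} (hr : 5000 ≤ r) :
    (2 * r + 2 * (16 * r ^ 4 + 1)) * (r + 1) ^ Nat.log 2 r * r ≤ 2 * 2 ^ (r / 9) := by
  set L := Nat.log 2 r with hL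
  have h1 : 2 ^ L ≤ r := Nat.pow_log_le_self 2 (by omega)
  have h2 : r < 2 ^ (L + 1) := Nat.lt_pow_succ_log_self (by norm_num) r
  have hL12 : 12 ≤ L := by
    by_contra hlt
    have h3 : 2 ^ (L + 1) ≤ 2 ^ 12 := Nat.pow_le_pow_right (by norm_num) (by omega)
    have : (2 : ℕ) ^ 12 = 4096 := by norm_num
    omega
  obtain ⟨j, hj⟩ : ∃ j, L = j + 12 := ⟨L - 12, by omega⟩
  have h3 := aux3 j
  have h4 : 6 + (L + 1) * (L + 4) + L ≤ r / 9 := by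
    have h5 : 9 * (6 + (L + 1) * (L + 4) + L) ≤ r := by
      rw [hj] at h1 ⊢
      have e : (j + 12 + 1) * (j + 12 + 4) = (j + 13) * (j + 16) := by ring
      rw [e]
      omega
    omega
  have h6 : 2 * r + 2 * (16 * r ^ 4 + 1) ≤ 2 ^ 6 * (2 ^ (L + 1)) ^ 4 := by
    have h7 : r ^ 4 ≤ (2 ^ (L + 1)) ^ 4 := Nat.pow_le_pow_left h2.le 4
    have h8 : r ≤ r ^ 4 := Nat.le_self_pow (by norm_num) r
    have h9 : 2 * r + 2 * (16 * r ^ 4 + 1) ≤ 2 ^ 6 * r ^ 4 := by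
      norm_num
      omega
    exact h9.trans (Nat.mul_le_mul_left _ h7)
  have h10 : (r + 1) ^ L ≤ (2 ^ (L + 1)) ^ L := Nat.pow_le_pow_left h2 L
  calc (2 * r + 2 * (16 * r ^ 4 + 1)) * (r + 1) ^ L * r
      ≤ (2 ^ 6 * (2 ^ (L + 1)) ^ 4) * (2 ^ (L + 1)) ^ L * 2 ^ (L + 1) :=
        Nat.mul_le_mul (Nat.mul_le_mul h6 h10) h2.le
    _ = 2 * 2 ^ (6 + (L + 1) * (L + 4) + L) := by
        rw [← pow_mul, ← pow_mul, ← pow_add, ← pow_add, ← pow_add, ← pow_succ']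
        congr 1
        ring
    _ ≤ 2 * 2 ^ (r / 9) := Nat.mul_le_mul_left _ (Nat.pow_le_pow_right (by norm_num) h4)

theorem ratio_le {r : ℕ} (hr : 5000 ≤ r) :
    ((Cl (r := r) IsQuot).ncard : ℝ) / ((Cl (r := r) IsHyp).ncard : ℝ) ≤ 2 / (r : ℝ) := by
  have hr0 : (0 : ℝ) < (r : ℝ) := by
    have : 0 < r := by omega
    exact_mod_cast this
  rcases Nat.eq_zero_or_pos (Cl (r := r) IsHyp).ncard with h0 | hpos
  · rw [h0, Nat.cast_zero, div_zero]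
    positivity
  have hH : (0 : ℝ) < ((Cl (r := r) IsHyp).ncard : ℝ) := by exact_mod_cast hpos
  rw [div_le_div_iff₀ hH hr0]
  have h1 := main_ineq (r := r) (by omega) (aux2 hr)
  have h2 := aux4 hr
  set Q := (Cl (r := r) IsQuot).ncard
  set H := (Cl (r := r) IsHyp).ncard
  have h3 : Q * r * 2 ^ (r / 9) ≤ 2 * H * 2 ^ (r / 9) := by
    calc Q * r * 2 ^ (r / 9) = (Q * 2 ^ (r / 9)) * r := by ring
      _ ≤ ((2 * r + 2 * (16 * r ^ 4 + 1)) * (r + 1) ^ Nat.log 2 r * H) * r :=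
          Nat.mul_le_mul_right _ h1
      _ = ((2 * r + 2 * (16 * r ^ 4 + 1)) * (r + 1) ^ Nat.log 2 r * r) * H := by ring
      _ ≤ (2 * 2 ^ (r / 9)) * H := Nat.mul_le_mul_right _ h2
      _ = 2 * H * 2 ^ (r / 9) := by ring
  have h4 : Q * r ≤ 2 * H := Nat.le_of_mul_le_mul_right h3 (by positivity)
  exact_mod_cast h4

theorem tendsto_ratio : Filter.Tendsto
    (fun r : ℕ => ((Cl (r := r) IsQuot).ncard : ℝ) / ((Cl (r := r) IsHyp).ncard : ℝ))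
    Filter.atTop (nhds 0) := by
  have h1 : Filter.Tendsto (fun r : ℕ => 2 / (r : ℝ)) Filter.atTop (nhds 0) :=
    tendsto_const_div_atTop_nhds_zero_nat 2
  refine tendsto_of_tendsto_of_tendsto_of_le_of_le' tendsto_const_nhds h1 ?_ ?_
  · exact Filter.Eventually.of_forall fun r => by positivity
  · filter_upwards [Filter.eventually_ge_atTop 5000] with r hr
    exact ratio_le hr

end Pool.Agent.Y85.Hyp
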